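import Mathlib

set_option autoImplicit false

namespace Pool.Agent.H34.CT

open Finset

theorem sum_sq_le (m : ℕ) : ∑ j ∈ Ioc 1 (1 + m), (1 / (j : ℝ) ^ 2) ≤ 1 - 1 / (1 + (m : ℝ)) := by
  induction m with
  | zero => simp
  | succ m ih =>
    rw [← add_assoc, sum_Ioc_succ_top (by omega)]
    have hm : (0 : ℝ) ≤ m := Nat.cast_nonneg m
    have h1 : 1 / ((1 + m + 1 : ℕ) : ℝ) ^ 2 ≤
        1 / ((1 : ℝ) + m) - 1 / ((1 : ℝ) + m + 1) := by
      push_cast
      rw [div_sub_div _ _ (by positivity) (by positivity),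
        div_le_div_iff₀ (by positivity) (by positivity)]
      nlinarith
    push_cast at h1 ih ⊢
    rw [← add_assoc]
    linarith

theorem prod_le (Y : ℕ) :
    ∏ p ∈ (Icc 1 Y).filter Nat.Prime, (1 + 2 / (p : ℝ) * (1 / (p : ℝ))) ≤ Real.exp 2 := by
  have h1 : ∏ p ∈ (Icc 1 Y).filter Nat.Prime, (1 + 2 / (p : ℝ) * (1 / (p : ℝ))) ≤
      ∏ p ∈ (Icc 1 Y).filter Nat.Prime, Real.exp (2 * (1 / (p : ℝ) ^ 2)) := by
    apply prod_le_prod
    · intro p _
      positivity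
    · intro p hp
      have hp0 : (0 : ℝ) < p := by exact_mod_cast (mem_filter.1 hp).2.pos
      have h2 := Real.add_one_le_exp (2 * (1 / (p : ℝ) ^ 2))
      have h3 : 2 / (p : ℝ) * (1 / (p : ℝ)) = 2 * (1 / (p : ℝ) ^ 2) := by
        field_simp
      rw [h3]
      linarith
  rw [← Real.exp_sum, ← mul_sum] at h1
  refine h1.trans (Real.exp_le_exp.2 ?_)
  have h2 : ∑ p ∈ (Icc 1 Y).filter Nat.Prime, (1 / (p : ℝ) ^ 2) ≤
      ∑ p ∈ Ioc 1 (1 + Y), (1 / (p : ℝ) ^ 2) := by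
    apply sum_le_sum_of_subset_of_nonneg
    · intro p hp
      have h3 := mem_filter.1 hp
      have h4 := mem_Icc.1 h3.1
      exact mem_Ioc.2 ⟨h3.2.one_lt, by omega⟩
    · intro p _ _
      positivity
  have h3 := sum_sq_le Y
  have h4 : (0 : ℝ) ≤ 1 / (1 + (Y : ℝ)) := by positivity
  linarith

theorem sum_multiples (Y : ℕ) (T : Finset ℕ) (hT : ∀ p ∈ T, p.Prime) :
    ∑ s ∈ (Icc 1 Y).filter (fun s => T ⊆ s.primeFactors), (1 / (s : ℝ)) ≤
      (∏ p ∈ T, (1 / (p : ℝ))) * ∑ t ∈ Icc 1 Y, (1 / (t : ℝ)) := by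
  set d := ∏ p ∈ T, p with hd
  have hd0 : 0 < d := prod_pos fun p hp => (hT p hp).pos
  have hdR : (0 : ℝ) < d := by exact_mod_cast hd0
  have hdvd : ∀ s ∈ (Icc 1 Y).filter (fun s => T ⊆ s.primeFactors), d ∣ s := by
    intro s hs
    have h1 := mem_filter.1 hs
    apply Finset.prod_primes_dvd
    · intro p hp
      exact (hT p hp).prime
    · intro p hp
      exact Nat.dvd_of_mem_primeFactors (h1.2 hp)
  have h1 : ∏ p ∈ T, (1 / (p : ℝ)) = 1 / (d : ℝ) := by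
    rw [hd]
    push_cast
    simp only [one_div, prod_inv_distrib]
  rw [h1]
  have h2 : ∑ s ∈ (Icc 1 Y).filter (fun s => T ⊆ s.primeFactors), (1 / (s : ℝ)) =
      1 / (d : ℝ) * ∑ s ∈ (Icc 1 Y).filter (fun s => T ⊆ s.primeFactors),
        (1 / ((s / d : ℕ) : ℝ)) := by
    rw [mul_sum]
    apply sum_congr rfl
    intro s hs
    obtain ⟨t, ht⟩ := hdvd s hs
    rw [ht, Nat.mul_div_cancel_left _ hd0]
    push_cast
    rw [one_div_mul_one_div]
  rw [h2]
  apply mul_le_mul_of_nonneg_left _ (by positivity)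
  have hinj : Set.InjOn (fun s => s / d)
      (((Icc 1 Y).filter (fun s => T ⊆ s.primeFactors) : Finset ℕ) : Set ℕ) := by
    intro a ha b hb hab
    obtain ⟨x, hx⟩ := hdvd a (mem_coe.1 ha)
    obtain ⟨y, hy⟩ := hdvd b (mem_coe.1 hb)
    have hab' : a / d = b / d := hab
    rw [hx, hy, Nat.mul_div_cancel_left _ hd0, Nat.mul_div_cancel_left _ hd0] at hab'
    rw [hx, hy, hab']
  have h3 : ∑ s ∈ (Icc 1 Y).filter (fun s => T ⊆ s.primeFactors), (1 / ((s / d : ℕ) : ℝ)) =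
      ∑ t ∈ ((Icc 1 Y).filter (fun s => T ⊆ s.primeFactors)).image (fun s => s / d),
        (1 / (t : ℝ)) := by
    rw [sum_image hinj]
  rw [h3]
  apply sum_le_sum_of_subset_of_nonneg
  · intro t ht
    obtain ⟨s, hs, rfl⟩ := mem_image.1 ht
    obtain ⟨x, hx⟩ := hdvd s hs
    have h4 := mem_Icc.1 (mem_filter.1 hs).1
    show s / d ∈ Icc 1 Y
    rw [hx, Nat.mul_div_cancel_left _ hd0]
    rw [hx] at h4
    rw [mem_Icc]
    constructor
    · rcases Nat.eq_zero_or_pos x with h0 | h0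
      · rw [h0] at h4; omega
      · exact h0
    · exact le_trans (Nat.le_mul_of_pos_left x hd0) h4.2
  · intro t _ _
    positivity

/-- T1b -/
theorem sum_weight : ∃ C : ℝ, 0 < C ∧ ∀ Y : ℕ, 2 ≤ Y →
    ∑ s ∈ Icc 1 Y, (∏ p ∈ s.primeFactors, (1 + 2 / (p : ℝ))) / s ≤ C * Real.log Y := by
  classical
  refine ⟨Real.exp 2 * 3, by positivity, ?_⟩
  intro Y hY
  set P := (Icc 1 Y).filter Nat.Prime with hP
  set g : Finset ℕ → ℝ := fun T => ∏ p ∈ T, (2 / (p : ℝ)) with hg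
  have hg0 : ∀ T, 0 ≤ g T := fun T => prod_nonneg fun p _ => by positivity
  have h1 : ∀ s ∈ Icc 1 Y, (∏ p ∈ s.primeFactors, (1 + 2 / (p : ℝ))) / s =
      ∑ T ∈ P.powerset, (if T ⊆ s.primeFactors then g T * (1 / (s : ℝ)) else 0) := by
    intro s hs
    have hs' := mem_Icc.1 hs
    rw [prod_one_add, ← sum_filter, sum_div]
    have h2 : (P.powerset).filter (fun T => T ⊆ s.primeFactors) = s.primeFactors.powerset := by
      ext T
      rw [mem_filter, mem_powerset, mem_powerset]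
      constructor
      · exact fun h => h.2
      · intro h
        refine ⟨?_, h⟩
        intro p hp
        have hps := h hp
        have hpp := Nat.prime_of_mem_primeFactors hps
        have hple := Nat.le_of_mem_primeFactors hps
        exact mem_filter.2 ⟨mem_Icc.2 ⟨hpp.one_le, hple.trans hs'.2⟩, hpp⟩
    rw [h2]
    apply sum_congr rfl
    intro T _
    rw [mul_one_div]
  rw [sum_congr rfl h1, sum_comm]
  have h3 : ∀ T ∈ P.powerset, ∑ s ∈ Icc 1 Y,
      (if T ⊆ s.primeFactors then g T * (1 / (s : ℝ)) else 0) ≤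
      (∏ p ∈ T, (2 / (p : ℝ) * (1 / (p : ℝ)))) * ∑ t ∈ Icc 1 Y, (1 / (t : ℝ)) := by
    intro T hT
    have hTp : ∀ p ∈ T, p.Prime := fun p hp =>
      (mem_filter.1 ((mem_powerset.1 hT) hp)).2
    rw [← sum_filter, ← mul_sum, prod_mul_distrib, mul_assoc]
    exact mul_le_mul_of_nonneg_left (sum_multiples Y T hTp) (hg0 T)
  refine (sum_le_sum h3).trans ?_
  rw [← sum_mul, ← prod_one_add]
  have h4 := prod_le Y
  have hH : ∑ t ∈ Icc 1 Y, (1 / (t : ℝ)) ≤ 1 + Real.log Y := by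
    have h5 := harmonic_le_one_add_log Y
    rw [harmonic_eq_sum_Icc] at h5
    push_cast at h5
    simp only [one_div]
    exact h5
  have hYR : (2 : ℝ) ≤ Y := by exact_mod_cast hY
  have hlog : Real.log 2 ≤ Real.log Y := Real.log_le_log (by norm_num) hYR
  have hlog2 := Real.log_two_gt_d9
  have hH0 : (0 : ℝ) ≤ ∑ t ∈ Icc 1 Y, (1 / (t : ℝ)) := sum_nonneg fun t _ => by positivity
  calc (∏ p ∈ P, (1 + 2 / (p : ℝ) * (1 / (p : ℝ)))) * ∑ t ∈ Icc 1 Y, (1 / (t : ℝ))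
      ≤ Real.exp 2 * ∑ t ∈ Icc 1 Y, (1 / (t : ℝ)) := mul_le_mul_of_nonneg_right h4 hH0
    _ ≤ Real.exp 2 * (3 * Real.log Y) := by
        apply mul_le_mul_of_nonneg_left _ (Real.exp_pos 2).le
        linarith
    _ = Real.exp 2 * 3 * Real.log Y := by ring

end Pool.Agent.H34.CT
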