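import Mathlib

set_option autoImplicit false

namespace Pool.Agent.H34.CT

/-- T1c: the least divisor `a > y` of `m` has a cofactor `> y`, if `m / q > y ^ 2` for all primes `q ∣ m`. -/
theorem split_or (m y : ℕ) (hm : 1 < m) (hy : 1 ≤ y)
    (h : ∀ q : ℕ, q.Prime → q ∣ m → y ^ 2 < m / q) : ∃ a b : ℕ, m = a * b ∧ y < a ∧ y < b := by
  classical
  have hmy : y < m := by
    obtain ⟨q, hq, hqm⟩ := Nat.exists_prime_and_dvd (show m ≠ 1 by omega)
    have h1 := h q hq hqm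
    have h2 : m / q ≤ m := Nat.div_le_self _ _
    nlinarith
  have hex : ∃ a, a ∣ m ∧ y < a := ⟨m, dvd_rfl, hmy⟩
  obtain ⟨a, ha⟩ : ∃ a, a = Nat.find hex := ⟨_, rfl⟩
  have hspec := Nat.find_spec hex
  rw [← ha] at hspec
  obtain ⟨ha1, ha2⟩ := hspec
  obtain ⟨q, hq, hqa⟩ := Nat.exists_prime_and_dvd (show a ≠ 1 by omega)
  have h4 := h q hq (hqa.trans ha1)
  obtain ⟨c, hc⟩ := hqa
  obtain ⟨b, hb⟩ := ha1
  have hcb : m / q = c * b := by
    rw [hb, hc, mul_assoc, Nat.mul_div_cancel_left _ hq.pos]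
  have hcy : c ≤ y := by
    by_contra hcon
    push Not at hcon
    have h5 : Nat.find hex ≤ c := Nat.find_min' hex
      ⟨⟨q * b, by rw [hb, hc]; ring⟩, hcon⟩
    rw [← ha] at h5
    have h6 := hq.two_le
    have h7 : 0 < c := by omega
    nlinarith
  refine ⟨a, b, hb, ha2, ?_⟩
  rw [hcb] at h4
  by_contra hcon
  push Not at hcon
  have : c * b ≤ y * y := Nat.mul_le_mul hcy hcon
  nlinarith

end Pool.Agent.H34.CT
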