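import Mathlib

/-!
Many of the numbers `2 m + 1`, `m ≤ n`, are prime (Chebyshev).
-/

set_option autoImplicit false

namespace Pool.Agent.H34.CT

open Finset

/-- T1d -/
theorem many_primes : ∃ c : ℝ, 0 < c ∧ ∃ n0 : ℕ, ∀ n : ℕ, n0 ≤ n →
    c * n / Real.log n ≤ (((Icc 1 n).filter (fun m => (2 * m + 1).Prime)).card : ℝ) := by
  refine ⟨1 / 4, by norm_num, 10, fun n hn => ?_⟩
  have hn' : (10 : ℝ) ≤ n := by exact_mod_cast hn
  have h1 := Chebyshev.pi_ge (2 * n + 1)
  -- the primes up to `2 n + 1`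
  have h2 : Nat.primeCounting (2 * n + 1) ≤
      ((Icc 1 n).filter (fun m => (2 * m + 1).Prime)).card + 1 := by
    rw [Nat.primeCounting, Nat.primeCounting', Nat.count_eq_card_filter_range]
    have h3 : (range (2 * n + 1 + 1)).filter Nat.Prime ⊆
        insert 2 (((Icc 1 n).filter (fun m => (2 * m + 1).Prime)).image (fun m => 2 * m + 1)) := by
      intro p hp
      rw [mem_filter, mem_range] at hp
      rw [mem_insert, mem_image]
      rcases hp.2.eq_two_or_odd' with h | h
      · exact Or.inl h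
      · right
        obtain ⟨m, hm⟩ := h
        have h4 : p ≠ 1 := hp.2.ne_one
        refine ⟨m, ?_, hm.symm⟩
        rw [mem_filter, mem_Icc]
        exact ⟨⟨by omega, by omega⟩, hm ▸ hp.2⟩
    calc ((range (2 * n + 1 + 1)).filter Nat.Prime).card
        ≤ _ := card_le_card h3
      _ ≤ _ := card_insert_le _ _
      _ ≤ _ := Nat.add_le_add_right card_image_le 1
  have h2' : (Nat.primeCounting (2 * n + 1) : ℝ) ≤
      (((Icc 1 n).filter (fun m => (2 * m + 1).Prime)).card : ℝ) + 1 := by exact_mod_cast h2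
  have hl2 := Real.log_two_gt_d9
  have hl2' := Real.log_two_lt_d9
  have hlog8 : Real.log 8 = 3 * Real.log 2 := by
    rw [show (8 : ℝ) = 2 ^ 3 by norm_num, Real.log_pow]; norm_num
  have key : ∀ x : ℝ, 0 < x → Real.log x ≤ x / 8 - 1 + 3 * Real.log 2 := by
    intro x hx
    have h := Real.log_le_sub_one_of_pos (show 0 < x / 8 by positivity)
    rw [Real.log_div hx.ne' (by norm_num), hlog8] at h
    linarith
  have hlogn : 0 < Real.log n := Real.log_pos (by linarith)
  have hlogN : 0 < Real.log ((2 * n + 1 : ℕ) : ℝ) := Real.log_pos (by push_cast; linarith)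
  have h5 : (n : ℝ) ≤ ((2 * n + 1 : ℕ) : ℝ) * Real.log 2 - Real.log (((2 * n + 1 : ℕ) : ℝ) + 1) := by
    have h := key (((2 * n + 1 : ℕ) : ℝ) + 1) (by positivity)
    push_cast at h ⊢
    nlinarith
  have h6 : Real.log ((2 * n + 1 : ℕ) : ℝ) ≤ 2 * Real.log n := by
    have h : Real.log ((2 * n + 1 : ℕ) : ℝ) ≤ Real.log ((n : ℝ) ^ 2) := by
      apply Real.log_le_log (by positivity)
      push_cast
      nlinarith
    rwa [Real.log_pow, Nat.cast_ofNat] at h
  have h7 : (n : ℝ) / (2 * Real.log n) ≤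
      (((2 * n + 1 : ℕ) : ℝ) * Real.log 2 - Real.log (((2 * n + 1 : ℕ) : ℝ) + 1)) /
        Real.log ((2 * n + 1 : ℕ) : ℝ) :=
    div_le_div₀ (by linarith) h5 hlogN h6
  have h8 : (1 : ℝ) ≤ n / (4 * Real.log n) := by
    rw [le_div_iff₀ (by positivity)]
    have h := key n (by linarith)
    linarith
  have h9 : (n : ℝ) / (2 * Real.log n) = 2 * (n / (4 * Real.log n)) := by
    field_simp
    norm_num
  have h10 : 1 / 4 * (n : ℝ) / Real.log n = n / (4 * Real.log n) := by
    field_simp
  rw [h10]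
  linarith

end Pool.Agent.H34.CT
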