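import Mathlib

/-!
Many primes `2m + 1` such that `m` is a product of two different factors above a small power.
-/

set_option autoImplicit false

namespace Pool.Agent.H34.CT

open Finset

open Classical in
theorem good_edges_of
    (HA : ∃ C : ℝ, 0 < C ∧ ∃ n0 : ℕ, ∀ n s : ℕ, n0 ≤ n → 1 ≤ s → s ^ 2 ≤ n →
      (((Icc 1 (n / s)).filter (fun P => P.Prime ∧ (2 * s * P + 1).Prime)).card : ℝ) ≤
        C * n / (Real.log n) ^ 2 * ((∏ p ∈ s.primeFactors, (1 + 2 / (p : ℝ))) / s))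
    (HB : ∃ C : ℝ, 0 < C ∧ ∀ Y : ℕ, 2 ≤ Y →
      ∑ s ∈ Icc 1 Y, (∏ p ∈ s.primeFactors, (1 + 2 / (p : ℝ))) / s ≤ C * Real.log Y)
    (HC : ∀ (m y : ℕ), 1 < m → 1 ≤ y →
      (∀ q : ℕ, q.Prime → q ∣ m → y ^ 2 < m / q) → ∃ a b : ℕ, m = a * b ∧ y < a ∧ y < b)
    (HD : ∃ c : ℝ, 0 < c ∧ ∃ n0 : ℕ, ∀ n : ℕ, n0 ≤ n →
      c * n / Real.log n ≤ (((Icc 1 n).filter (fun m => (2 * m + 1).Prime)).card : ℝ)) :
    ∃ c c1 : ℝ, 0 < c ∧ 0 < c1 ∧ ∃ n0 : ℕ, ∀ n : ℕ, n0 ≤ n → ∀ y : ℕ, 1 ≤ y →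
    (y : ℝ) ≤ (n : ℝ) ^ c → c1 * n / Real.log n ≤ (((Icc 1 n).filter (fun m =>
      (2 * m + 1).Prime ∧ ∃ a b : ℕ, m = a * b ∧ y < a ∧ a < b)).card : ℝ) := by
  obtain ⟨C1, hC1, n1, hA⟩ := HA
  obtain ⟨C2, hC2, hB⟩ := HB
  obtain ⟨d, hd, n2, hD⟩ := HD
  have hC12 : 0 < C1 * C2 := mul_pos hC1 hC2
  obtain ⟨c, hcpos, hc8, hcd⟩ : ∃ c : ℝ, 0 < c ∧ c ≤ 1 / 8 ∧ 3 * c * (C1 * C2) ≤ d / 4 := by
    refine ⟨min (1 / 8) (d / (12 * (C1 * C2))), lt_min (by norm_num) (by positivity),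
      min_le_left _ _, ?_⟩
    have h : min (1 / 8) (d / (12 * (C1 * C2))) ≤ d / (12 * (C1 * C2)) := min_le_right _ _
    calc 3 * min (1 / 8) (d / (12 * (C1 * C2))) * (C1 * C2)
        ≤ 3 * (d / (12 * (C1 * C2))) * (C1 * C2) := by gcongr
      _ = d / 4 := by field_simp; norm_num
  have e1 : ∀ᶠ x : ℝ in Filter.atTop, ‖Real.log x‖ ≤ (d / 4) * ‖x ^ (1 / 2 : ℝ)‖ :=
    (isLittleO_log_rpow_atTop (by norm_num : (0 : ℝ) < 1 / 2)).bound (by positivity)
  have e2 : ∀ᶠ x : ℝ in Filter.atTop, Real.log 2 / c ≤ Real.log x :=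
    Real.tendsto_log_atTop.eventually (Filter.eventually_ge_atTop _)
  obtain ⟨x0, hx0⟩ := Filter.eventually_atTop.1 (e1.and e2)
  refine ⟨c, d / 2, hcpos, by positivity, max (max 16 ⌈x0⌉₊) (max n1 n2),
    fun n hn y hy hyn => ?_⟩
  have hn16 : 16 ≤ n := (le_max_left _ _).trans ((le_max_left _ _).trans hn)
  have hnx : x0 ≤ n := Nat.ceil_le.1 ((le_max_right _ _).trans ((le_max_left _ _).trans hn))
  have hn1 : n1 ≤ n := (le_max_left _ _).trans ((le_max_right _ _).trans hn)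
  have hn2 : n2 ≤ n := (le_max_right _ _).trans ((le_max_right _ _).trans hn)
  have hnR16 : (16 : ℝ) ≤ n := by exact_mod_cast hn16
  have hnR : (0 : ℝ) < n := by linarith
  obtain ⟨h1, h2⟩ := hx0 n hnx
  have hlogpos : 0 < Real.log n := Real.log_pos (by linarith)
  have hyR : (1 : ℝ) ≤ y := by exact_mod_cast hy
  -- `y ^ 8 ≤ n`
  have hy8 : y ^ 8 ≤ n := by
    have h3 : (y : ℝ) ^ 8 ≤ n := by
      calc (y : ℝ) ^ 8 ≤ ((n : ℝ) ^ c) ^ 8 := by gcongr
        _ = (n : ℝ) ^ (c * 8) := by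
            rw [← Real.rpow_natCast, ← Real.rpow_mul hnR.le]
            norm_num
        _ ≤ (n : ℝ) ^ (1 : ℝ) := Real.rpow_le_rpow_of_exponent_le (by linarith) (by linarith)
        _ = n := Real.rpow_one _
    exact_mod_cast h3
  have hy4 : 4 * y ^ 4 ≤ n := by
    apply (Nat.pow_le_pow_iff_left (two_ne_zero)).1
    calc (4 * y ^ 4) ^ 2 = 16 * y ^ 8 := by ring
      _ ≤ 16 * n := Nat.mul_le_mul_left _ hy8
      _ ≤ n * n := Nat.mul_le_mul_right _ hn16
      _ = n ^ 2 := by ring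
  set Y := y ^ 2 + 1 with hY
  have hYle : Y ≤ 2 * y ^ 2 := by
    have : 1 ≤ y ^ 2 := Nat.one_le_pow _ _ hy
    omega
  have hY2 : 2 ≤ Y := by
    have : 1 ≤ y ^ 2 := Nat.one_le_pow _ _ hy
    omega
  have hsn : ∀ s ∈ Icc 1 Y, s ^ 2 ≤ n := by
    intro s hs
    have h3 := (mem_Icc.1 hs).2.trans hYle
    calc s ^ 2 ≤ (2 * y ^ 2) ^ 2 := Nat.pow_le_pow_left h3 2
      _ = 4 * y ^ 4 := by ring
      _ ≤ n := hy4
  have hlogY : Real.log Y ≤ 3 * c * Real.log n := by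
    have h3 : Real.log y ≤ c * Real.log n := by
      have h4 := Real.log_le_log (by linarith) hyn
      rwa [Real.log_rpow hnR] at h4
    have h5 : (Y : ℝ) ≤ 2 * (y : ℝ) ^ 2 := by exact_mod_cast hYle
    have h6 := Real.log_le_log (by positivity) h5
    rw [Real.log_mul (by norm_num) (by positivity), Real.log_pow] at h6
    have h7 : Real.log 2 ≤ c * Real.log n := by
      rw [div_le_iff₀ hcpos] at h2
      linarith
    push_cast at h6
    linarith
  set G := (Icc 1 n).filter (fun m =>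
      (2 * m + 1).Prime ∧ ∃ a b : ℕ, m = a * b ∧ y < a ∧ a < b) with hG
  set U := (Icc 1 n).filter (fun m => (2 * m + 1).Prime) with hU
  set B := (Icc 1 (Nat.sqrt n)).image (fun a => a * a) with hBd
  set T := (Icc 1 Y).biUnion (fun s => ((Icc 1 (n / s)).filter
    (fun P => P.Prime ∧ (2 * s * P + 1).Prime)).image (fun P => s * P)) with hT
  have hsub : U ⊆ G ∪ (B ∪ T) := by
    intro m hm
    obtain ⟨hm1, hmp⟩ := mem_filter.1 hm
    obtain ⟨hm1, hm2⟩ := mem_Icc.1 hm1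
    rw [mem_union, mem_union]
    by_cases hsq : ∃ a, m = a * a
    · obtain ⟨a, ha⟩ := hsq
      right
      left
      refine mem_image.2 ⟨a, mem_Icc.2 ⟨?_, ?_⟩, ha.symm⟩
      · rcases Nat.eq_zero_or_pos a with h | h
        · rw [h] at ha
          omega
        · exact h
      · rw [Nat.le_sqrt, ← ha]
        exact hm2
    · have hm3 : 1 < m := by
        rcases Nat.lt_or_ge 1 m with h | h
        · exact h
        · exact absurd ⟨1, by omega⟩ hsq
      by_cases hq : ∀ q : ℕ, q.Prime → q ∣ m → y ^ 2 < m / q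
      · left
        obtain ⟨a, b, hab, hya, hyb⟩ := HC m y hm3 hy hq
        refine mem_filter.2 ⟨mem_Icc.2 ⟨hm1, hm2⟩, hmp, ?_⟩
        rcases lt_trichotomy a b with h | h | h
        · exact ⟨a, b, hab, hya, h⟩
        · exact absurd ⟨a, by rw [hab, h]⟩ hsq
        · exact ⟨b, a, by rw [hab, mul_comm], hyb, h⟩
      · right
        right
        push Not at hq
        obtain ⟨q, hqp, hqm, hqs⟩ := hq
        have hq0 : 0 < m / q := Nat.div_pos (Nat.le_of_dvd (by omega) hqm) hqp.pos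
        have hmq : m / q * q = m := Nat.div_mul_cancel hqm
        refine mem_biUnion.2 ⟨m / q, mem_Icc.2 ⟨hq0, by omega⟩, mem_image.2 ⟨q, ?_, hmq⟩⟩
        refine mem_filter.2 ⟨mem_Icc.2 ⟨hqp.one_lt.le, ?_⟩, hqp, ?_⟩
        · rw [Nat.le_div_iff_mul_le hq0, mul_comm, hmq]
          exact hm2
        · rw [mul_assoc, hmq]
          exact hmp
  have hcard : (U.card : ℝ) ≤ G.card + (B.card + T.card) := by
    have h3 := (card_le_card hsub).trans (card_union_le _ _)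
    have h4 := card_union_le B T
    have h5 : U.card ≤ G.card + (B.card + T.card) := by omega
    exact_mod_cast h5
  have hBc : (B.card : ℝ) ≤ (d / 4) * (n / Real.log n) := by
    have h3 : B.card ≤ Nat.sqrt n := by
      refine card_image_le.trans ?_
      simp
    have h4 : (B.card : ℝ) ≤ Real.sqrt n := by
      refine le_trans ?_ (Real.nat_sqrt_le_real_sqrt (a := n))
      exact_mod_cast h3
    rw [Real.norm_of_nonneg hlogpos.le, Real.norm_of_nonneg (by positivity),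
      ← Real.sqrt_eq_rpow] at h1
    have h5 : Real.sqrt n * Real.sqrt n = n := Real.mul_self_sqrt hnR.le
    have h6 : 0 ≤ Real.sqrt n := Real.sqrt_nonneg _
    rw [← mul_div_assoc, le_div_iff₀ hlogpos]
    calc (B.card : ℝ) * Real.log n ≤ Real.sqrt n * ((d / 4) * Real.sqrt n) := by gcongr
      _ = (d / 4) * (Real.sqrt n * Real.sqrt n) := by ring
      _ = d / 4 * n := by rw [h5]
  have hTc : (T.card : ℝ) ≤ (d / 4) * (n / Real.log n) := by
    have h3 : T.card ≤ ∑ s ∈ Icc 1 Y, ((Icc 1 (n / s)).filter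
        (fun P => P.Prime ∧ (2 * s * P + 1).Prime)).card := by
      refine card_biUnion_le.trans (sum_le_sum fun s hs => card_image_le)
    have h4 : (T.card : ℝ) ≤ ∑ s ∈ Icc 1 Y, (((Icc 1 (n / s)).filter
        (fun P => P.Prime ∧ (2 * s * P + 1).Prime)).card : ℝ) := by exact_mod_cast h3
    have h5 : (T.card : ℝ) ≤ ∑ s ∈ Icc 1 Y, C1 * n / (Real.log n) ^ 2 *
        ((∏ p ∈ s.primeFactors, (1 + 2 / (p : ℝ))) / s) :=
      h4.trans (sum_le_sum fun s hs => hA n s hn1 (mem_Icc.1 hs).1 (hsn s hs))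
    rw [← mul_sum] at h5
    have h6 : (0 : ℝ) ≤ C1 * n / (Real.log n) ^ 2 := by positivity
    calc (T.card : ℝ) ≤ C1 * n / (Real.log n) ^ 2 * (C2 * (3 * c * Real.log n)) :=
          h5.trans (mul_le_mul_of_nonneg_left ((hB Y hY2).trans
            (mul_le_mul_of_nonneg_left hlogY hC2.le)) h6)
      _ = (3 * c * (C1 * C2)) * (n / Real.log n) := by field_simp
      _ ≤ (d / 4) * (n / Real.log n) := by
          apply mul_le_mul_of_nonneg_right hcd
          positivity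
  have hDn := hD n hn2
  rw [mul_div_assoc] at hDn ⊢
  have h7 : d / 2 * (n / Real.log n) + (d / 4 * (n / Real.log n) + d / 4 * (n / Real.log n)) =
      d * (n / Real.log n) := by ring
  linarith

end Pool.Agent.H34.CT
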