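import Mathlib

set_option autoImplicit false

/-!
# Greedy matching of edges `{a, b}` with `2ab + 1` prime
-/

namespace Pool.Agent.H34.CT

open Finset Filter

open Classical in
/-- one greedy step -/
theorem greedy_step (n y : ℕ) (hy : 1 ≤ y) (U : Finset ℕ)
    (hU : U.card * (n / y) < ((Icc 1 n).filter (fun m =>
      (2 * m + 1).Prime ∧ ∃ a b : ℕ, m = a * b ∧ y < a ∧ a < b)).card) :
    ∃ a b : ℕ, a ∉ U ∧ b ∉ U ∧ a ≠ b ∧ 1 ≤ a ∧ a ≤ n ∧ 1 ≤ b ∧ b ≤ n ∧
      (2 * a * b + 1).Prime := by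
  by_contra hcon
  push Not at hcon
  have hsub : (Icc 1 n).filter (fun m =>
      (2 * m + 1).Prime ∧ ∃ a b : ℕ, m = a * b ∧ y < a ∧ a < b) ⊆
      (U.filter (fun u => y < u)).biUnion (fun u => (Ioc 0 n).filter (fun m => u ∣ m)) := by
    intro m hm
    rw [mem_filter, mem_Icc] at hm
    obtain ⟨⟨hm1, hmn⟩, hp, a, b, hab, hya, hlt⟩ := hm
    have ha0 : 1 ≤ a := by omega
    have hb0 : 1 ≤ b := by omega
    have han : a ≤ n := by
      have : a * 1 ≤ a * b := Nat.mul_le_mul_left a hb0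
      omega
    have hbn : b ≤ n := by
      have : 1 * b ≤ a * b := Nat.mul_le_mul_right b ha0
      omega
    rw [mem_biUnion]
    by_cases haU : a ∈ U
    · refine ⟨a, mem_filter.2 ⟨haU, hya⟩, mem_filter.2 ⟨mem_Ioc.2 ⟨by omega, hmn⟩, ?_⟩⟩
      exact ⟨b, hab⟩
    · by_cases hbU : b ∈ U
      · refine ⟨b, mem_filter.2 ⟨hbU, by omega⟩, mem_filter.2 ⟨mem_Ioc.2 ⟨by omega, hmn⟩, ?_⟩⟩
        exact ⟨a, by rw [hab, mul_comm]⟩
      · exfalso
        refine hcon a b haU hbU (by omega) ha0 han hb0 hbn ?_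
        rw [mul_assoc, ← hab]
        exact hp
  have h1 := (card_le_card hsub).trans card_biUnion_le
  have h2 : ∑ u ∈ U.filter (fun u => y < u), ((Ioc 0 n).filter (fun m => u ∣ m)).card ≤
      ∑ u ∈ U.filter (fun u => y < u), n / y := by
    refine sum_le_sum fun u hu => ?_
    rw [Nat.Ioc_filter_dvd_card_eq_div]
    exact Nat.div_le_div_left (mem_filter.1 hu).2.le hy
  have h3 : ∑ u ∈ U.filter (fun u => y < u), n / y ≤ U.card * (n / y) := by
    rw [sum_const, smul_eq_mul]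
    exact Nat.mul_le_mul_right _ (card_le_card (filter_subset _ _))
  omega

open Classical in
/-- the greedy matching -/
theorem greedy (n y : ℕ) (hy : 1 ≤ y) (F : Finset ℕ) (k : ℕ)
    (hU : (F.card + 2 * k) * (n / y) < ((Icc 1 n).filter (fun m =>
      (2 * m + 1).Prime ∧ ∃ a b : ℕ, m = a * b ∧ y < a ∧ a < b)).card) (j : ℕ) (hj : j ≤ k) :
    ∃ w : ℕ → ℕ, (∀ i < 2 * j, 1 ≤ w i ∧ w i ≤ n ∧ w i ∉ F) ∧
      (∀ i < 2 * j, ∀ i' < 2 * j, w i = w i' → i = i') ∧
      ∀ i < j, (2 * w (2 * i) * w (2 * i + 1) + 1).Prime := by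
  induction j with
  | zero =>
    exact ⟨fun _ => 0, fun i hi => by omega, fun i hi => by omega, fun i hi => by omega⟩
  | succ j ih =>
    obtain ⟨w, h1, h2, h3⟩ := ih (by omega)
    have hcard : (F ∪ (range (2 * j)).image w).card ≤ F.card + 2 * k := by
      refine (card_union_le _ _).trans ?_
      have := (card_image_le (s := range (2 * j)) (f := w))
      rw [card_range] at this
      omega
    obtain ⟨a, b, ha, hb, hab, ha1, han, hb1, hbn, hp⟩ :=
      greedy_step n y hy (F ∪ (range (2 * j)).image w)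
        (lt_of_le_of_lt (Nat.mul_le_mul_right _ hcard) hU)
    rw [mem_union, not_or] at ha hb
    have haw : ∀ i < 2 * j, w i ≠ a := fun i hi h =>
      ha.2 (mem_image.2 ⟨i, mem_range.2 hi, h⟩)
    have hbw : ∀ i < 2 * j, w i ≠ b := fun i hi h =>
      hb.2 (mem_image.2 ⟨i, mem_range.2 hi, h⟩)
    let w' : ℕ → ℕ := fun i => if i < 2 * j then w i else if i = 2 * j then a else b
    have e1 : ∀ i < 2 * j, w' i = w i := fun i hi => if_pos hi
    have e2 : w' (2 * j) = a := by simp [w']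
    have e3 : w' (2 * j + 1) = b := by simp [w']
    have cases : ∀ i < 2 * (j + 1), i < 2 * j ∨ i = 2 * j ∨ i = 2 * j + 1 := fun i hi => by omega
    refine ⟨w', ?_, ?_, ?_⟩
    · intro i hi
      rcases cases i hi with h | rfl | rfl
      · rw [e1 i h]
        exact h1 i h
      · rw [e2]
        exact ⟨ha1, han, ha.1⟩
      · rw [e3]
        exact ⟨hb1, hbn, hb.1⟩
    · intro i hi i' hi' h
      rcases cases i hi with h4 | rfl | rfl <;> rcases cases i' hi' with h5 | rfl | rfl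
      · rw [e1 i h4, e1 i' h5] at h
        exact h2 i h4 i' h5 h
      · rw [e1 i h4, e2] at h
        exact absurd h (haw i h4)
      · rw [e1 i h4, e3] at h
        exact absurd h (hbw i h4)
      · rw [e2, e1 i' h5] at h
        exact absurd h.symm (haw i' h5)
      · rfl
      · rw [e2, e3] at h
        exact absurd h hab
      · rw [e3, e1 i' h5] at h
        exact absurd h.symm (hbw i' h5)
      · rw [e3, e2] at h
        exact absurd h.symm hab
      · rfl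
    · intro i hi
      rcases Nat.lt_succ_iff_lt_or_eq.1 hi with h | rfl
      · rw [e1 _ (by omega), e1 _ (by omega)]
        exact h3 i h
      · rw [e2, e3]
        exact hp

/-- the numerical condition -/
theorem eventually_small (c c1 : ℝ) (hc : 0 < c) (hc1 : 0 < c1) :
    ∃ n0 : ℕ, 2 ≤ n0 ∧ ∀ n : ℕ, n0 ≤ n → 6 * Real.log n < c1 * (n : ℝ) ^ (c / 2) := by
  have h := (isLittleO_log_rpow_atTop (half_pos hc)).bound
    (show (0 : ℝ) < c1 / 12 by positivity)
  have h2 := tendsto_natCast_atTop_atTop (R := ℝ) |>.eventually h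
  obtain ⟨n0, hn0⟩ := eventually_atTop.1 h2
  refine ⟨max n0 2, le_max_right _ _, fun n hn => ?_⟩
  have h3 := hn0 n ((le_max_left _ _).trans hn)
  have hn2 : 2 ≤ n := (le_max_right _ _).trans hn
  have hnpos : (0 : ℝ) < n := by exact_mod_cast (by omega : 0 < n)
  have hpos : (0 : ℝ) < (n : ℝ) ^ (c / 2) := Real.rpow_pos_of_pos hnpos _
  rw [Real.norm_eq_abs, Real.norm_eq_abs, abs_of_pos hpos] at h3
  have h4 := le_abs_self (Real.log n)
  nlinarith [mul_pos hc1 hpos]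

open Classical in
/-- T2: greedy matching from T1e (a vertex `a > y` lies in at most `n / y` edges) -/
theorem matching_of (H : ∃ c c1 : ℝ, 0 < c ∧ 0 < c1 ∧ ∃ n0 : ℕ, ∀ n : ℕ, n0 ≤ n → ∀ y : ℕ, 1 ≤ y →
    (y : ℝ) ≤ (n : ℝ) ^ c → c1 * n / Real.log n ≤ (((Icc 1 n).filter (fun m =>
      (2 * m + 1).Prime ∧ ∃ a b : ℕ, m = a * b ∧ y < a ∧ a < b)).card : ℝ)) :
    ∃ c : ℝ, 0 < c ∧ ∃ n0 : ℕ, ∀ n : ℕ, n0 ≤ n → ∀ F : Finset ℕ,
    (F.card : ℝ) ≤ (n : ℝ) ^ c → ∀ k : ℕ, (k : ℝ) ≤ (n : ℝ) ^ c → ∃ w : ℕ → ℕ,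
      (∀ i < 2 * k, 1 ≤ w i ∧ w i ≤ n ∧ w i ∉ F) ∧
      (∀ i < 2 * k, ∀ j < 2 * k, w i = w j → i = j) ∧
      ∀ j < k, (2 * w (2 * j) * w (2 * j + 1) + 1).Prime := by
  obtain ⟨c, c1, hc, hc1, n0, hE⟩ := H
  obtain ⟨n1, hn1, hS⟩ := eventually_small c c1 hc hc1
  refine ⟨c / 2, half_pos hc, max n0 n1, fun n hn F hF k hk => ?_⟩
  have hn0 : n0 ≤ n := (le_max_left _ _).trans hn
  have hn1' : n1 ≤ n := (le_max_right _ _).trans hn
  have hn2 : 2 ≤ n := hn1.trans hn1'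
  have hn1r : (1 : ℝ) ≤ n := by exact_mod_cast (by omega : 1 ≤ n)
  have hnpos : (0 : ℝ) < n := by linarith
  have hlog : 0 < Real.log n := Real.log_pos (by exact_mod_cast (by omega : 1 < n))
  set X : ℝ := (n : ℝ) ^ (c / 2) with hX
  have hXpos : 0 < X := Real.rpow_pos_of_pos hnpos _
  have hXX : (n : ℝ) ^ c = X * X := by
    rw [hX, ← Real.rpow_add hnpos]
    congr 1
    ring
  have hc1' : (1 : ℝ) ≤ (n : ℝ) ^ c := Real.one_le_rpow hn1r hc.le
  set y : ℕ := ⌊(n : ℝ) ^ c⌋₊ with hy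
  have hy1 : 1 ≤ y := Nat.le_floor (by exact_mod_cast hc1')
  have hyle : (y : ℝ) ≤ (n : ℝ) ^ c := Nat.floor_le (by linarith)
  have hylt : (n : ℝ) ^ c < y + 1 := Nat.lt_floor_add_one _
  have hy1r : (1 : ℝ) ≤ y := by exact_mod_cast hy1
  have hy2 : (n : ℝ) ^ c ≤ 2 * y := by linarith
  have hEn := hE n hn0 y hy1 hyle
  have hSn := hS n hn1'
  have hdiv : ((n / y : ℕ) : ℝ) ≤ n / y := Nat.cast_div_le
  have key : ((F.card + 2 * k) * (n / y) : ℕ) < ((Icc 1 n).filter (fun m =>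
      (2 * m + 1).Prime ∧ ∃ a b : ℕ, m = a * b ∧ y < a ∧ a < b)).card := by
    have h1 : (((F.card + 2 * k) * (n / y) : ℕ) : ℝ) ≤ 3 * X * (n / y) := by
      push_cast
      apply mul_le_mul _ hdiv (Nat.cast_nonneg _) (by positivity)
      linarith
    have h2 : 3 * X * (n / y) ≤ 6 * n / X := by
      rw [mul_div_assoc', div_le_div_iff₀ (by linarith) hXpos]
      have : X * X ≤ 2 * y := by rw [← hXX]; exact hy2
      nlinarith
    have h3 : 6 * n / X < c1 * n / Real.log n := by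
      rw [div_lt_div_iff₀ hXpos hlog]
      nlinarith
    have h4 := lt_of_le_of_lt (h1.trans h2) (lt_of_lt_of_le h3 hEn)
    exact_mod_cast h4
  exact greedy n y hy1 F k key k le_rfl

end Pool.Agent.H34.CT
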