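import Pool.Agent.H34.CT.T1a
import Pool.Agent.H34.CT.T1b
import Pool.Agent.H34.CT.T1c
import Pool.Agent.H34.CT.T1d
import Pool.Agent.H34.CT.T1e
import Pool.Agent.H34.CT.T2

/-!
Many disjoint pairs `a`, `b` with `2ab + 1` prime.
-/

set_option autoImplicit false

namespace Pool.Agent.H34.CT

open Finset

/-- many disjoint pairs `a`, `b` with `2ab + 1` prime -/
theorem matching : ∃ c : ℝ, 0 < c ∧ ∃ n0 : ℕ, ∀ n : ℕ, n0 ≤ n → ∀ F : Finset ℕ,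
    (F.card : ℝ) ≤ (n : ℝ) ^ c → ∀ k : ℕ, (k : ℝ) ≤ (n : ℝ) ^ c → ∃ w : ℕ → ℕ,
      (∀ i < 2 * k, 1 ≤ w i ∧ w i ≤ n ∧ w i ∉ F) ∧
      (∀ i < 2 * k, ∀ j < 2 * k, w i = w j → i = j) ∧
      ∀ j < k, (2 * w (2 * j) * w (2 * j + 1) + 1).Prime :=
  matching_of (good_edges_of twin_bound sum_weight split_or many_primes)

end Pool.Agent.H34.CT
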