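import Pool.Agent.H34.CQ.Init

set_option autoImplicit false

namespace Pool.Agent.H34.CT

open Finset Pool.Agent.H34.CP Pool.Agent.H34.CQ

open Classical in
/-- from circular orders to permutations of `Fin n`, with the number of pairs of a given kind -/
theorem circ_perm (n : ℕ) (hn : 1 ≤ n) (π : ℕ → ℕ) (hc : Circ n π) :
    ∃ σ : Equiv.Perm (Fin n), (∀ i : Fin n, ∃ j ∈ Set.Icc 1 n, (σ i).val + 1 = π j ∧
      (σ (finRotate n i)).val + 1 = π (j + 1)) ∧ ∀ W : ℕ → ℕ → Prop, cnt n W π ≤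
        (univ.filter (fun i : Fin n => W ((σ i).val + 1) ((σ (finRotate n i)).val + 1))).card := by
  obtain ⟨σ, hσ⟩ := to_perm n hn (fun x y => ∃ j ∈ Set.Icc 1 n, x = π j ∧ y = π (j + 1))
    ⟨π, hc.bij, hc.per, fun i hi => ⟨i, hi, rfl, rfl⟩⟩
  refine ⟨σ, hσ, fun W => ?_⟩
  have hplace : ∀ j ∈ Set.Icc 1 n, ∃ i : Fin n, (σ i).val + 1 = π j ∧
      (σ (finRotate n i)).val + 1 = π (j + 1) := by
    intro j hj
    have h1 := hc.bij.mapsTo hj
    have h1a := h1.1
    have h1b := h1.2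
    refine ⟨σ.symm ⟨π j - 1, by omega⟩, ?_⟩
    obtain ⟨j', hj', h2, h3⟩ := hσ (σ.symm ⟨π j - 1, by omega⟩)
    rw [Equiv.apply_symm_apply] at h2
    have h4 : π j' = π j := by
      rw [← h2]
      show π j - 1 + 1 = π j
      omega
    have h5 : j' = j := hc.bij.injOn hj' hj h4
    rw [h5] at h3
    refine ⟨?_, h3⟩
    rw [Equiv.apply_symm_apply]
    show π j - 1 + 1 = π j
    omega
  have : Nonempty (Fin n) := ⟨⟨0, by omega⟩⟩
  choose! f hf using hplace
  unfold cnt
  apply card_le_card_of_injOn f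
  · intro j hj
    have hj' := mem_filter.1 (mem_coe.1 hj)
    obtain ⟨h1, h2⟩ := hf j (by simpa using hj'.1)
    refine mem_coe.2 (mem_filter.2 ⟨mem_univ _, ?_⟩)
    rw [h1, h2]
    exact hj'.2
  · intro j hj j' hj' h
    have hj1 := (mem_filter.1 (mem_coe.1 hj)).1
    have hj1' := (mem_filter.1 (mem_coe.1 hj')).1
    have h1 := (hf j (by simpa using hj1)).1
    have h2 := (hf j' (by simpa using hj1')).1
    rw [h] at h1
    exact hc.bij.injOn (by simpa using hj1) (by simpa using hj1') (h1.symm.trans h2)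

end Pool.Agent.H34.CT
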