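import Pool.Agent.H34.CT.Defs
import Pool.Agent.H34.CS.Structp

/-!
Removing all bad neighbours without cutting the prescribed pairs (two kinds of them).
-/

set_option autoImplicit false

namespace Pool.Agent.H34.CT

open Finset Pool.Agent.H34.CQ Pool.Agent.H34.CS

theorem prot2_symm {k2 : ℕ} {w : ℕ → ℕ} {x y : ℕ} (h : Prot2 k2 w x y) : Prot2 k2 w y x := by
  obtain ⟨j, hj, h | h⟩ := h
  · exact ⟨j, hj, Or.inr h⟩
  · exact ⟨j, hj, Or.inl h⟩

theorem prot2_unique {k2 : ℕ} {w : ℕ → ℕ} (hw2 : ∀ i < 2 * k2, ∀ j < 2 * k2, w i = w j → i = j)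
    {x y z : ℕ} (h : Prot2 k2 w x y) (h' : Prot2 k2 w x z) : y = z := by
  obtain ⟨i, hi, ⟨h1, h2⟩ | ⟨h1, h2⟩⟩ := h <;> obtain ⟨j, hj, ⟨h3, h4⟩ | ⟨h3, h4⟩⟩ := h'
  · have := hw2 (2 * i) (by omega) (2 * j) (by omega) (h1.symm.trans h3)
    rw [h2, h4, this]
  · have := hw2 (2 * i) (by omega) (2 * j + 1) (by omega) (h1.symm.trans h4)
    omega
  · have := hw2 (2 * i + 1) (by omega) (2 * j) (by omega) (h2.symm.trans h3)
    omega
  · have := hw2 (2 * i + 1) (by omega) (2 * j + 1) (by omega) (h2.symm.trans h4)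
    have h5 : 2 * i = 2 * j := by omega
    rw [h1, h3, h5]

/-- the exchange argument -/
theorem exchange2 (n D0 k2 : ℕ) (T A mix P2 : ℕ → ℕ → Prop) (hT : ∀ x y, T x y → T y x)
    (hA : ∀ x y, A x y → A y x) (hmix : ∀ x y, mix x y → mix y x)
    (hP2 : ∀ x y, P2 x y → P2 y x)
    (hex : ∀ π : ℕ → ℕ, Circ n π → (∀ i ∈ Set.Icc 1 n, T (π i) (π (i + 1))) →
      cnt n mix π ≤ D0 → ∀ i ∈ Set.Icc 1 n, ¬ A (π i) (π (i + 1)) →
      ∃ j ∈ Set.Icc 1 n, j ≠ i ∧ T (π i) (π j) ∧ A (π i) (π j) ∧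
        T (π (i + 1)) (π (j + 1)) ∧ A (π (i + 1)) (π (j + 1)) ∧
        ((mix (π i) (π j) → mix (π i) (π (i + 1))) ∧ ¬ mix (π (i + 1)) (π (j + 1)) ∨
         ¬ mix (π i) (π j) ∧ (mix (π (i + 1)) (π (j + 1)) → mix (π i) (π (i + 1)))) ∧
        ¬ P2 (π i) (π (i + 1)) ∧ ¬ P2 (π j) (π (j + 1)))
    (N : ℕ) : ∀ π : ℕ → ℕ, cnt n (fun x y => ¬ A x y) π ≤ N → Circ n π →
      (∀ i ∈ Set.Icc 1 n, T (π i) (π (i + 1))) → cnt n mix π ≤ D0 → k2 ≤ cnt n P2 π →
      ∃ ρ : ℕ → ℕ, Circ n ρ ∧ (∀ i ∈ Set.Icc 1 n, T (ρ i) (ρ (i + 1)) ∧ A (ρ i) (ρ (i + 1))) ∧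
        k2 ≤ cnt n P2 ρ := by
  have hA' : ∀ x y, ¬ A x y → ¬ A y x := fun x y h1 h2 => h1 (hA _ _ h2)
  induction N with
  | zero =>
    intro π hN hc hTπ _ hk
    refine ⟨π, hc, fun i hi => ⟨hTπ i hi, ?_⟩, hk⟩
    by_contra hcon
    have := cnt_pos (W := fun x y => ¬ A x y) hi hcon
    omega
  | succ N ih =>
    intro π hN hc hTπ hD hk
    by_cases hall : ∀ i ∈ Set.Icc 1 n, A (π i) (π (i + 1))
    · exact ⟨π, hc, fun i hi => ⟨hTπ i hi, hall i hi⟩, hk⟩
    push Not at hall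
    obtain ⟨i, hi, hbad⟩ := hall
    obtain ⟨j, hj, hji, h1, h2, h3, h4, h5, hp1, hp2⟩ := hex π hc hTπ hD i hi hbad
    have hi1 := hi.1
    have hi2 := hi.2
    have hj1 := hj.1
    have hj2 := hj.2
    rcases Nat.lt_or_ge i j with hij | hij
    · refine ih (rev i j π) ?_ (circ_rev hc hi1 hij hj2)
        (all_rev π hi1 hij hj2 T hT hTπ h1 h3) ?_ ?_
      · obtain ⟨k, e1, e2, e3, e4, g1, g2, g3, g4, g5, g6⟩ :=
          cnt_rev (n := n) π hi1 hij hj2 (fun x y => ¬ A x y) hA'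
        rcases g3 with ⟨_, g3⟩ | ⟨g3, _⟩
        · rcases g5 with ⟨g5, _⟩ | ⟨_, g5⟩
          · exact absurd h2 g5
          · rcases g6 with ⟨g6, _⟩ | ⟨_, g6⟩
            · exact absurd h4 g6
            · omega
        · exact absurd hbad g3
      · obtain ⟨k, e1, e2, e3, e4, g1, g2, g3, g4, g5, g6⟩ :=
          cnt_rev (n := n) π hi1 hij hj2 mix hmix
        have h6 : e3 + e4 ≤ e1 := by
          rcases h5 with ⟨h5, h5'⟩ | ⟨h5, h5'⟩
          · rcases g6 with ⟨g6, _⟩ | ⟨_, g6⟩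
            · exact absurd g6 h5'
            · rcases g5 with ⟨g5, g5'⟩ | ⟨_, g5'⟩
              · rcases g3 with ⟨_, g3'⟩ | ⟨g3, _⟩
                · omega
                · exact absurd (h5 g5) g3
              · omega
          · rcases g5 with ⟨g5, _⟩ | ⟨_, g5⟩
            · exact absurd g5 h5
            · rcases g6 with ⟨g6, g6'⟩ | ⟨_, g6'⟩
              · rcases g3 with ⟨_, g3'⟩ | ⟨g3, _⟩
                · omega
                · exact absurd (h5' g6) g3
              · omega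
        omega
      · obtain ⟨k, e1, e2, e3, e4, g1, g2, g3, g4, g5, g6⟩ :=
          cnt_rev (n := n) π hi1 hij hj2 P2 hP2
        rcases g3 with ⟨g3, _⟩ | ⟨_, g3⟩
        · exact absurd g3 hp1
        · rcases g4 with ⟨g4, _⟩ | ⟨_, g4⟩
          · exact absurd g4 hp2
          · omega
    · have hij' : j < i := by omega
      refine ih (rev j i π) ?_ (circ_rev hc hj1 hij' hi2)
        (all_rev π hj1 hij' hi2 T hT hTπ (hT _ _ h1) (hT _ _ h3)) ?_ ?_
      · obtain ⟨k, e1, e2, e3, e4, g1, g2, g3, g4, g5, g6⟩ :=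
          cnt_rev (n := n) π hj1 hij' hi2 (fun x y => ¬ A x y) hA'
        rcases g4 with ⟨_, g4⟩ | ⟨g4, _⟩
        · rcases g5 with ⟨g5, _⟩ | ⟨_, g5⟩
          · exact absurd (hA _ _ h2) g5
          · rcases g6 with ⟨g6, _⟩ | ⟨_, g6⟩
            · exact absurd (hA _ _ h4) g6
            · omega
        · exact absurd hbad g4
      · obtain ⟨k, e1, e2, e3, e4, g1, g2, g3, g4, g5, g6⟩ :=
          cnt_rev (n := n) π hj1 hij' hi2 mix hmix
        have h6 : e3 + e4 ≤ e2 := by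
          rcases h5 with ⟨h5, h5'⟩ | ⟨h5, h5'⟩
          · rcases g6 with ⟨g6, _⟩ | ⟨_, g6⟩
            · exact absurd (hmix _ _ g6) h5'
            · rcases g5 with ⟨g5, g5'⟩ | ⟨_, g5'⟩
              · rcases g4 with ⟨_, g4'⟩ | ⟨g4, _⟩
                · omega
                · exact absurd (h5 (hmix _ _ g5)) g4
              · omega
          · rcases g5 with ⟨g5, _⟩ | ⟨_, g5⟩
            · exact absurd (hmix _ _ g5) h5
            · rcases g6 with ⟨g6, g6'⟩ | ⟨_, g6'⟩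
              · rcases g4 with ⟨_, g4'⟩ | ⟨g4, _⟩
                · omega
                · exact absurd (h5' (hmix _ _ g6)) g4
              · omega
        omega
      · obtain ⟨k, e1, e2, e3, e4, g1, g2, g3, g4, g5, g6⟩ :=
          cnt_rev (n := n) π hj1 hij' hi2 P2 hP2
        rcases g3 with ⟨g3, _⟩ | ⟨_, g3⟩
        · exact absurd g3 hp2
        · rcases g4 with ⟨g4, _⟩ | ⟨_, g4⟩
          · exact absurd g4 hp1
          · omega

theorem structq (M n Q D0 β k k2 : ℕ) (g w : ℕ → ℕ)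
    (hw2 : ∀ i < 2 * k2, ∀ j < 2 * k2, w i = w j → i = j) (hM : 0 < M) (τ : ℕ → ℕ) (hτlt : ∀ r, τ r < M)
    (hinv : ∀ r, r < M → τ (τ r) = r) (hτ0 : τ 0 = 0) (A : ℕ → ℕ → Prop)
    (hA : ∀ x y, A x y → A y x) (hprot : ∀ x y, Prot k g x y → A x y)
    (hprot2 : ∀ x y, Prot2 k2 w x y → A x y)
    (hQ : ∀ r, r < M → ∀ F : Finset ℕ, (∀ x ∈ Icc 1 n, x % M = r → x ∈ F) → Q ≤ F.card)
    (hβ : ∀ x ∈ Icc 1 n, ∀ r, r < M → (r = τ (x % M) ∨ M ∣ x ∨ r = 0) → ∀ F : Finset ℕ,
      (∀ y ∈ F, y ∈ Icc 1 n ∧ y % M = r ∧ ¬ A x y) → F.card ≤ β)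
    (hbig : D0 + 3 + 2 * β < Q)
    (π0 : ℕ → ℕ) (h0 : Circ n π0) (hT0 : ∀ i ∈ Set.Icc 1 n, Tq M τ k g k2 w (π0 i) (π0 (i + 1)))
    (hD0 : cnt n (Mixq M k g k2 w) π0 ≤ D0) (hk0 : k2 ≤ cnt n (Prot2 k2 w) π0) :
    ∃ π : ℕ → ℕ, Circ n π ∧ (∀ i ∈ Set.Icc 1 n,
      Tq M τ k g k2 w (π i) (π (i + 1)) ∧ A (π i) (π (i + 1))) ∧
      k2 ≤ cnt n (Prot2 k2 w) π := by
  classical
  have hmod : ∀ x, x % M < M := fun x => Nat.mod_lt _ hM
  have hτne : ∀ r, r < M → r ≠ 0 → τ r ≠ 0 := by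
    intro r hr h0 h
    have := hinv r hr
    rw [h, hτ0] at this
    exact h0 this.symm
  have hdvd : ∀ x, M ∣ x ↔ x % M = 0 := fun x => Nat.dvd_iff_mod_eq_zero
  have hTsymm' : ∀ x y, Allowed M τ x y → Allowed M τ y x := by
    rintro x y (h | h | h)
    · left
      rw [h, hinv _ (hmod x)]
    · exact Or.inr (Or.inr h)
    · exact Or.inr (Or.inl h)
  have hTsymm : ∀ x y, Tq M τ k g k2 w x y → Tq M τ k g k2 w y x := by
    rintro x y (h | h | ⟨h1, h2, h3⟩)
    · exact Or.inl (prot2_symm h)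
    · exact Or.inr (Or.inl (prot_symm h))
    · exact Or.inr (Or.inr ⟨hTsymm' x y h1, h3, h2⟩)
  have hmixsymm : ∀ x y, Mixq M k g k2 w x y → Mixq M k g k2 w y x := by
    rintro x y ((h | h) | h)
    · exact Or.inl (Or.inl fun h' => h h'.symm)
    · exact Or.inl (Or.inr (prot_symm h))
    · exact Or.inr (prot2_symm h)
  refine exchange2 n D0 k2 (Tq M τ k g k2 w) A (Mixq M k g k2 w) (Prot2 k2 w) hTsymm hA hmixsymm
    (fun _ _ h => prot2_symm h) ?_ _ π0 le_rfl h0 hT0 hD0 hk0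
  intro π hc hTπ hD i hi hbad
  obtain ⟨hTi, hki, hki1⟩ : Allowed M τ (π i) (π (i + 1)) ∧ k < π i ∧ k < π (i + 1) := by
    rcases hTπ i hi with h | h | h
    · exact absurd (hprot2 _ _ h) hbad
    · exact absurd (hprot _ _ h) hbad
    · exact h
  have hnp1 : ¬ Prot2 k2 w (π i) (π (i + 1)) := fun h => hbad (hprot2 _ _ h)
  -- the class of the new left neighbour
  have key : ∀ α : ℕ, α < M → (α = τ (π i % M) ∨ M ∣ π i ∨ α = 0) →
      (τ α = τ (π (i + 1) % M) ∨ M ∣ π (i + 1) ∨ τ α = 0) →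
      ∃ j ∈ Set.Icc 1 n, j ≠ i ∧ π j % M = α ∧ π (j + 1) % M = τ α ∧ A (π i) (π j) ∧
        A (π (i + 1)) (π (j + 1)) ∧ k < π j ∧ k < π (j + 1) ∧ ¬ Prot2 k2 w (π i) (π j) ∧
        ¬ Prot2 k2 w (π (i + 1)) (π (j + 1)) ∧ ¬ Prot2 k2 w (π j) (π (j + 1)) := by
    intro α hα h1 h2
    set I := (Icc 1 n).filter (fun j => π j % M = α) with hI
    have hIQ : Q ≤ I.card := by
      have h3 := hQ α hα (I.image π) (by
        intro x hx hxα
        obtain ⟨j, hj, rfl⟩ := hc.bij.surjOn (show x ∈ Set.Icc 1 n by simpa using hx)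
        exact mem_image.2 ⟨j, mem_filter.2 ⟨by simpa using hj, hxα⟩, rfl⟩)
      exact h3.trans card_image_le
    set I1 := (Icc 1 n).filter (fun j => Mixq M k g k2 w (π j) (π (j + 1))) with hI1
    have hI1D : I1.card ≤ D0 := by
      have : cnt n (Mixq M k g k2 w) π = I1.card := by
        unfold cnt
        rw [hI1]
      omega
    set I2 := (Icc 1 n).filter (fun j => π j % M = α ∧ ¬ A (π i) (π j)) with hI2
    have hI2β : I2.card ≤ β := by
      rw [← card_image_of_injOn (f := π) (s := I2)]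
      · apply hβ (π i) (by simpa using hc.bij.mapsTo hi) α hα h1
        intro y hy
        obtain ⟨j, hj, rfl⟩ := mem_image.1 hy
        rw [hI2, mem_filter] at hj
        exact ⟨by simpa using hc.bij.mapsTo (show j ∈ Set.Icc 1 n by simpa using hj.1), hj.2⟩
      · intro a ha b hb hab
        have ha' := (mem_filter.1 (mem_coe.1 ha)).1
        have hb' := (mem_filter.1 (mem_coe.1 hb)).1
        exact hc.bij.injOn (by simpa using ha') (by simpa using hb') hab
    set I3 := (Icc 1 n).filter (fun j => π (j + 1) % M = τ α ∧ ¬ A (π (i + 1)) (π (j + 1)))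
      with hI3
    have hI3β : I3.card ≤ β := by
      rw [← card_image_of_injOn (f := fun j => π (j + 1)) (s := I3)]
      · apply hβ (π (i + 1)) (by simpa using succ_mem hc hi) (τ α) (hτlt α) h2
        intro y hy
        obtain ⟨j, hj, rfl⟩ := mem_image.1 hy
        rw [hI3, mem_filter] at hj
        exact ⟨by simpa using succ_mem hc (show j ∈ Set.Icc 1 n by simpa using hj.1), hj.2⟩
      · intro a ha b hb hab
        have ha' := (mem_filter.1 (mem_coe.1 ha)).1
        have hb' := (mem_filter.1 (mem_coe.1 hb)).1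
        exact succ_inj hc a ha' b hb' hab
    set I4 := (Icc 1 n).filter (fun j => Prot2 k2 w (π i) (π j)) with hI4
    have hI41 : I4.card ≤ 1 := by
      apply card_le_one.2
      intro a ha b hb
      rw [hI4, mem_filter] at ha hb
      exact hc.bij.injOn (by simpa using ha.1) (by simpa using hb.1) (prot2_unique hw2 ha.2 hb.2)
    set I5 := (Icc 1 n).filter (fun j => Prot2 k2 w (π (i + 1)) (π (j + 1))) with hI5
    have hI51 : I5.card ≤ 1 := by
      apply card_le_one.2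
      intro a ha b hb
      rw [hI5, mem_filter] at ha hb
      exact succ_inj hc a ha.1 b hb.1 (prot2_unique hw2 ha.2 hb.2)
    by_contra hcon
    push Not at hcon
    have hsub : I ⊆ ((((({i} ∪ I1) ∪ I2) ∪ I3) ∪ I4) ∪ I5) := by
      intro j hj
      rw [hI, mem_filter] at hj
      obtain ⟨hj1, hj2⟩ := hj
      by_cases hm4 : Prot2 k2 w (π i) (π j)
      · exact mem_union_left _ (mem_union_right _ (mem_filter.2 ⟨hj1, hm4⟩))
      by_cases hm5 : Prot2 k2 w (π (i + 1)) (π (j + 1))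
      · exact mem_union_right _ (mem_filter.2 ⟨hj1, hm5⟩)
      apply mem_union_left
      apply mem_union_left
      rw [mem_union, mem_union, mem_union, mem_singleton]
      by_cases hji : j = i
      · exact Or.inl (Or.inl (Or.inl hji))
      by_cases hm : Mixq M k g k2 w (π j) (π (j + 1))
      · exact Or.inl (Or.inl (Or.inr (mem_filter.2 ⟨hj1, hm⟩)))
      by_cases hg : A (π i) (π j)
      · right
        obtain ⟨hTj, hkj, hkj1⟩ : Allowed M τ (π j) (π (j + 1)) ∧ k < π j ∧ k < π (j + 1) := by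
          rcases hTπ j (by simpa using hj1) with h | h | h
          · exact absurd (Or.inr h) hm
          · exact absurd (Or.inl (Or.inr h)) hm
          · exact h
        have hτα : π (j + 1) % M = τ α := by
          have hm' : M ∣ π j ↔ M ∣ π (j + 1) := not_not.1 fun h => hm (Or.inl (Or.inl h))
          rcases hTj with h | h | h
          · rw [h, hj2]
          · have h4 := hm'.1 h
            rw [hdvd] at h h4
            rw [h4, ← hj2, h, hτ0]
          · have h4 := hm'.2 h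
            rw [hdvd] at h h4
            rw [h, ← hj2, h4, hτ0]
        rw [hI3, mem_filter]
        refine ⟨hj1, hτα, fun hg' => ?_⟩
        exact hm (Or.inr (hcon j (by simpa using hj1) hji hj2 hτα hg hg' hkj hkj1 hm4 hm5))
      · exact Or.inl (Or.inr (mem_filter.2 ⟨hj1, hj2, hg⟩))
    have hle := card_le_card hsub
    have h6 := card_union_le (((({i} ∪ I1) ∪ I2) ∪ I3) ∪ I4) I5
    have h7 := card_union_le ((({i} ∪ I1) ∪ I2) ∪ I3) I4
    have h3 := card_union_le (({i} ∪ I1) ∪ I2) I3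
    have h4 := card_union_le ({i} ∪ I1) I2
    have h5 := card_union_le {i} I1
    rw [card_singleton] at h5
    omega
  by_cases hy : M ∣ π (i + 1)
  · -- the class is `τ (π i % M)`
    obtain ⟨j, hj, hji, h1, h2, h3, h4, hkj, hkj1, hn4, hn5, hn6⟩ :=
      key (τ (π i % M)) (hτlt _) (Or.inl rfl) (Or.inr (Or.inl hy))
    rw [hinv _ (hmod _)] at h2
    refine ⟨j, hj, hji, Or.inr (Or.inr ⟨Or.inl h1, hki, hkj⟩), h3,
      Or.inr (Or.inr ⟨Or.inr (Or.inl hy), hki1, hkj1⟩), h4, Or.inr ⟨?_, ?_⟩, hnp1, hn6⟩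
    · rintro ((hm | hm) | hm)
      · apply hm
        rw [hdvd, hdvd, h1]
        constructor
        · intro h
          rw [h, hτ0]
        · intro h
          by_contra hne
          exact hτne _ (hmod _) hne h
      · exact not_prot hki hkj hm
      · exact hn4 hm
    · rintro ((hm | hm) | hm)
      · left
        left
        intro hm'
        apply hm
        rw [hdvd (π (j + 1)), h2, ← hdvd]
        exact ⟨fun _ => hm'.2 hy, fun _ => hy⟩
      · exact absurd hm (not_prot hki1 hkj1)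
      · exact absurd hm hn5
  · -- the class is that of `π (i + 1)`
    have hT := hTi
    have h1 : π (i + 1) % M = τ (π i % M) ∨ M ∣ π i ∨ π (i + 1) % M = 0 := by
      rcases hT with h | h | h
      · exact Or.inl h
      · exact Or.inr (Or.inl h)
      · exact absurd h hy
    obtain ⟨j, hj, hji, h1', h2, h3, h4, hkj, hkj1, hn4, hn5, hn6⟩ :=
      key (π (i + 1) % M) (hmod _) h1 (Or.inl rfl)
    have hy0 : π (i + 1) % M ≠ 0 := fun h => hy ((hdvd _).2 h)
    refine ⟨j, hj, hji, Or.inr (Or.inr ⟨?_, hki, hkj⟩), h3,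
      Or.inr (Or.inr ⟨Or.inl h2, hki1, hkj1⟩), h4, Or.inl ⟨?_, ?_⟩, hnp1, hn6⟩
    · rcases h1 with h | h | h
      · left
        rw [h1', h]
      · exact Or.inr (Or.inl h)
      · exact absurd h hy0
    · rintro ((hm | hm) | hm)
      · left
        left
        intro hm'
        apply hm
        rw [hdvd (π j), h1', ← hdvd]
        exact hm'
      · exact absurd hm (not_prot hki hkj)
      · exact absurd hm hn4
    · rintro ((hm | hm) | hm)
      · apply hm
        rw [hdvd, hdvd, h2]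
        exact ⟨fun h => absurd h hy0, fun h => absurd h (hτne _ (hmod _) hy0)⟩
      · exact not_prot hki1 hkj1 hm
      · exact hn5 hm

end Pool.Agent.H34.CT
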