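import Pool.Agent.H34.CT.Defs
import Pool.Agent.H34.CS.Prep

set_option autoImplicit false

namespace Pool.Agent.H34.CT

open Finset Pool.Agent.H34.CQ Pool.Agent.H34.CS

/-- many consecutive places with multiples of `M` outside `X` -/
theorem window2 (M n L c D0 : ℕ) (X : Finset ℕ) (hX : X.card ≤ c)
    (hsize : L + (D0 + c) * L + c < n / M)
    (π0 : ℕ → ℕ) (h0 : Circ n π0) (hD0 : cnt n (Mixed M) π0 ≤ D0) :
    ∃ i0, 1 ≤ i0 ∧ i0 + L ≤ n ∧ ∀ t, t ≤ L → M ∣ π0 (i0 + t) ∧ π0 (i0 + t) ∉ X := by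
  classical
  by_contra hcon
  push Not at hcon
  have hD : ((Icc 1 n).filter (fun i => Mixed M (π0 i) (π0 (i + 1)))).card ≤ D0 := by
    have e : cnt n (Mixed M) π0 =
        ((Icc 1 n).filter (fun i => Mixed M (π0 i) (π0 (i + 1)))).card := by
      unfold cnt
      congr
    rw [← e]
    exact hD0
  set A := (Icc 1 n).filter (fun i => M ∣ π0 i ∧ π0 i ∉ X) with hA
  set E := (Icc 1 n).filter (fun e => Mixed M (π0 e) (π0 (e + 1))) ∪
    (Icc 1 n).filter (fun e => π0 (e + 1) ∈ X) with hE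
  have hEc : E.card ≤ D0 + c := by
    have h1 := card_union_le ((Icc 1 n).filter (fun e => Mixed M (π0 e) (π0 (e + 1))))
      ((Icc 1 n).filter (fun e => π0 (e + 1) ∈ X))
    have h2 := card_place' h0 X
    rw [← hE] at h1
    omega
  have hAc : n / M ≤ A.card + c := by
    have h1 : ((Ioc 0 n).filter (fun v => M ∣ v)).card = n / M := Nat.Ioc_filter_dvd_card_eq_div n M
    have h2 : (Ioc 0 n).filter (fun v => M ∣ v) ⊆ A.image π0 ∪ X := by
      intro v hv
      obtain ⟨hv1, hv2⟩ := mem_filter.1 hv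
      rw [mem_Ioc] at hv1
      rw [mem_union]
      by_cases hvX : v ∈ X
      · exact Or.inr hvX
      · left
        obtain ⟨i, hi, rfl⟩ := h0.bij.surjOn (show v ∈ Set.Icc 1 n from ⟨by omega, hv1.2⟩)
        exact mem_image_of_mem _ (mem_filter.2 ⟨mem_Icc.2 ⟨hi.1, hi.2⟩, hv2, hvX⟩)
    have h3 := (card_le_card h2).trans (card_union_le _ _)
    have h4 : (A.image π0).card ≤ A.card := card_image_le
    omega
  have hsub : A ⊆ Ioc (n - L) n ∪ E.biUnion (fun e => Icc (e + 1 - L) e) := by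
    intro i hi
    obtain ⟨hi1, hi2⟩ := mem_filter.1 hi
    rw [mem_Icc] at hi1
    rw [mem_union]
    by_cases hle : i ≤ n - L
    · right
      by_cases h4k : i + L ≤ n
      · have hex : ∃ t, t ≤ L ∧ ¬ (M ∣ π0 (i + t) ∧ π0 (i + t) ∉ X) := by
          obtain ⟨t, ht, h⟩ := hcon i hi1.1 h4k
          exact ⟨t, ht, fun h' => h'.2 (h h'.1)⟩
        have hspec := Nat.find_spec hex
        set t := Nat.find hex with ht
        have ht0 : t ≠ 0 := by
          intro h
          rw [h] at hspec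
          exact hspec.2 (by simpa using hi2)
        have hmin := Nat.find_min hex (m := t - 1) (by omega)
        have hprev : M ∣ π0 (i + (t - 1)) ∧ π0 (i + (t - 1)) ∉ X := by
          by_contra h
          exact hmin ⟨by omega, h⟩
        rw [mem_biUnion]
        refine ⟨i + (t - 1), ?_, ?_⟩
        · rw [hE, mem_union, mem_filter, mem_filter, mem_Icc]
          have e1 : i + (t - 1) + 1 = i + t := by omega
          rw [e1]
          by_cases hx : π0 (i + t) ∈ X
          · exact Or.inr ⟨⟨by omega, by omega⟩, hx⟩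
          · refine Or.inl ⟨⟨by omega, by omega⟩, ?_⟩
            intro hiff
            exact hspec.2 ⟨hiff.1 hprev.1, hx⟩
        · rw [mem_Icc]
          omega
      · exfalso
        omega
    · left
      rw [mem_Ioc]
      omega
  have h1 := (card_le_card hsub).trans (card_union_le _ _)
  have h2 : (E.biUnion (fun e => Icc (e + 1 - L) e)).card ≤ E.card * L := by
    apply card_biUnion_le_card_mul
    intro e _
    rw [Nat.card_Icc]
    omega
  have h3 : (Ioc (n - L) n).card ≤ L := by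
    rw [Nat.card_Ioc]
    omega
  have h4 : E.card * L ≤ (D0 + c) * L := Nat.mul_le_mul_right _ hEc
  omega

theorem prep2 (M n k k2 D0 : ℕ) (hM : 0 < M) (τ g w : ℕ → ℕ)
    (hw1 : ∀ i < 2 * k2, k < w i ∧ w i ≤ n)
    (hw2 : ∀ i < 2 * k2, ∀ j < 2 * k2, w i = w j → i = j)
    (hwg : ∀ i < 2 * k2, ∀ j < 2 * k, w i ≠ g j)
    (hsize : (D0 + 6 * k + 4 * k2 + 1) * (3 * k2 + 1) + 3 * k + 2 * k2 < n / M)
    (π0 : ℕ → ℕ) (h0 : Circ n π0)
    (hT0 : ∀ i ∈ Set.Icc 1 n, Tp M τ k g (π0 i) (π0 (i + 1)))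
    (hD0 : cnt n (Mixp M k g) π0 ≤ D0) :
    ∃ π : ℕ → ℕ, Circ n π ∧ (∀ i ∈ Set.Icc 1 n, Tq M τ k g k2 w (π i) (π (i + 1))) ∧
      cnt n (Mixq M k g k2 w) π ≤ D0 + 8 * k2 ∧ k2 ≤ cnt n (Prot2 k2 w) π := by
  classical
  set X := ((range k).image (fun v => v + 1) ∪ (range (2 * k)).image g) ∪
    (range (2 * k2)).image w with hX
  have hXc : X.card ≤ 3 * k + 2 * k2 := by
    have h1 := card_union_le ((range k).image (fun v => v + 1) ∪ (range (2 * k)).image g)
      ((range (2 * k2)).image w)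
    have h2 := card_union_le ((range k).image (fun v => v + 1)) ((range (2 * k)).image g)
    have h3 : ((range k).image (fun v => v + 1)).card ≤ k :=
      card_image_le.trans (by rw [card_range])
    have h4 : ((range (2 * k)).image g).card ≤ 2 * k :=
      card_image_le.trans (by rw [card_range])
    have h5 : ((range (2 * k2)).image w).card ≤ 2 * k2 :=
      card_image_le.trans (by rw [card_range])
    rw [← hX] at h1
    omega
  have hXw : ∀ s < 2 * k2, w s ∈ X := fun s hs =>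
    mem_union_right _ (mem_image_of_mem _ (mem_range.2 hs))
  have hXsmall : ∀ v, 1 ≤ v → v ≤ k → v ∈ X := by
    intro v h1 h2
    refine mem_union_left _ (mem_union_left _ ?_)
    rw [mem_image]
    exact ⟨v - 1, mem_range.2 (by omega), by omega⟩
  have hDm : cnt n (Mixed M) π0 ≤ D0 := by
    refine le_trans ?_ hD0
    have e1 : cnt n (Mixed M) π0 =
        ((Icc 1 n).filter (fun i => Mixed M (π0 i) (π0 (i + 1)))).card := by
      unfold cnt
      congr
    have e2 : cnt n (Mixp M k g) π0 =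
        ((Icc 1 n).filter (fun i => Mixp M k g (π0 i) (π0 (i + 1)))).card := by
      unfold cnt
      congr
    rw [e1, e2]
    apply card_le_card
    intro i hi
    obtain ⟨h1, h2⟩ := mem_filter.1 hi
    exact mem_filter.2 ⟨h1, Or.inl h2⟩
  obtain ⟨i0, hi1, hi2, hwin⟩ := window2 M n (3 * k2) (3 * k + 2 * k2) D0 X hXc (by
    have : 3 * k2 + (D0 + (3 * k + 2 * k2)) * (3 * k2) ≤
        (D0 + 6 * k + 4 * k2 + 1) * (3 * k2 + 1) := by nlinarith
    omega) π0 h0 hDm
  -- the places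
  let pl : ℕ → ℕ := fun s => i0 + (3 * (s / 2) + s % 2 + 1)
  have hpl : ∀ s, pl s = i0 + (3 * (s / 2) + s % 2 + 1) := fun s => rfl
  have hpl1 : ∀ s < 2 * k2, i0 < pl s ∧ pl s < i0 + 3 * k2 ∧ pl s ∈ Set.Icc 1 n := by
    intro s hs
    rw [hpl]
    refine ⟨by omega, by omega, by omega, by omega⟩
  have hplinj : ∀ s < 2 * k2, ∀ s' < 2 * k2, pl s = pl s' → s = s' := by
    intro s hs s' hs' h
    rw [hpl, hpl] at h
    omega
  have hplJ : ∀ s < 2 * k2, M ∣ π0 (pl s) ∧ π0 (pl s) ∉ X := by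
    intro s hs
    rw [hpl]
    exact hwin _ (by omega)
  have hplk : ∀ s < 2 * k2, k < π0 (pl s) := by
    intro s hs
    by_contra hk
    exact (hplJ s hs).2 (hXsmall _ (h0.bij.mapsTo (hpl1 s hs).2.2).1 (by omega))
  obtain ⟨ρ, hρ1, hρ2⟩ := exists_swap (m := 2 * k2) w (fun s => π0 (pl s)) hw2
    (fun s hs s' hs' h => hplinj s hs s' hs'
      (h0.bij.injOn (hpl1 s hs).2.2 (hpl1 s' hs').2.2 h))
    (fun s hs s' hs' h => (hplJ s' hs').2 (by rw [← h]; exact hXw s hs))
  have hρρ : ∀ v, ρ (ρ v) = v := by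
    intro v
    by_cases h1 : ∃ s, s < 2 * k2 ∧ v = w s
    · obtain ⟨s, hs, rfl⟩ := h1
      rw [(hρ1 s hs).1, (hρ1 s hs).2]
    by_cases h2 : ∃ s, s < 2 * k2 ∧ v = π0 (pl s)
    · obtain ⟨s, hs, rfl⟩ := h2
      rw [(hρ1 s hs).2, (hρ1 s hs).1]
    have h3 := hρ2 v (fun s hs => ⟨fun h => h1 ⟨s, hs, h⟩, fun h => h2 ⟨s, hs, h⟩⟩)
    rw [h3, h3]
  have hρn : ∀ v ∈ Set.Icc 1 n, ρ v ∈ Set.Icc 1 n := by
    intro v hv
    by_cases h1 : ∃ s, s < 2 * k2 ∧ v = w s
    · obtain ⟨s, hs, rfl⟩ := h1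
      rw [(hρ1 s hs).1]
      exact h0.bij.mapsTo (hpl1 s hs).2.2
    by_cases h2 : ∃ s, s < 2 * k2 ∧ v = π0 (pl s)
    · obtain ⟨s, hs, rfl⟩ := h2
      rw [(hρ1 s hs).2]
      have := hw1 s hs
      exact ⟨by omega, this.2⟩
    rw [hρ2 v (fun s hs => ⟨fun h => h1 ⟨s, hs, h⟩, fun h => h2 ⟨s, hs, h⟩⟩)]
    exact hv
  have hρbij : Set.BijOn ρ (Set.Icc 1 n) (Set.Icc 1 n) := by
    refine ⟨hρn, ?_, ?_⟩
    · intro x _ y _ h
      have := congrArg ρ h
      rwa [hρρ, hρρ] at this
    · intro y hy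
      exact ⟨ρ y, hρn y hy, hρρ y⟩
  let π : ℕ → ℕ := fun i => ρ (π0 i)
  have hπ : ∀ i, π i = ρ (π0 i) := fun i => rfl
  have hc : Circ n π := by
    refine ⟨hρbij.comp h0.bij, ?_⟩
    rw [hπ, hπ, h0.per]
  -- values at the special places
  have hspec : ∀ s < 2 * k2, π (pl s) = w s := fun s hs => (hρ1 s hs).2
  -- places which are not special
  have hPr : ∀ i ∈ Set.Icc 1 n, (∀ s < 2 * k2, i ≠ pl s) →
      ((∀ s < 2 * k2, π0 i ≠ w s) ∧ π i = π0 i) ∨
        ((∃ s < 2 * k2, π0 i = w s) ∧ M ∣ π i ∧ k < π i) := by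
    intro i hi hns
    by_cases hx : ∃ s < 2 * k2, π0 i = w s
    · right
      refine ⟨hx, ?_⟩
      obtain ⟨s, hs, hsv⟩ := hx
      have e : π i = π0 (pl s) := by
        rw [hπ, hsv]
        exact (hρ1 s hs).1
      rw [e]
      exact ⟨(hplJ s hs).1, hplk s hs⟩
    · left
      push Not at hx
      refine ⟨hx, ?_⟩
      rw [hπ]
      apply hρ2
      intro s hs
      refine ⟨hx s hs, fun h => hns s hs ?_⟩
      exact h0.bij.injOn hi (hpl1 s hs).2.2 h
  -- the multiples of `M` that stay in the window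
  have hstay : ∀ q ≤ k2, k < π (i0 + 3 * q) ∧ M ∣ π (i0 + 3 * q) := by
    intro q hq
    have hmem : i0 + 3 * q ∈ Set.Icc 1 n := ⟨by omega, by omega⟩
    have hns : ∀ s < 2 * k2, i0 + 3 * q ≠ pl s := by
      intro s hs
      rw [hpl]
      omega
    have hw := hwin (3 * q) (by omega)
    rcases hPr _ hmem hns with ⟨h1, h2⟩ | ⟨-, h2, h3⟩
    · rw [h2]
      refine ⟨?_, hw.1⟩
      by_contra hk
      exact hw.2 (hXsmall _ (h0.bij.mapsTo hmem).1 (by omega))
    · exact ⟨h3, h2⟩
  have a0 : ∀ q < k2, π (i0 + 3 * q + 1) = w (2 * q) := by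
    intro q hq
    have := hspec (2 * q) (by omega)
    rw [hpl] at this
    have e1 : i0 + (3 * (2 * q / 2) + 2 * q % 2 + 1) = i0 + 3 * q + 1 := by omega
    rw [e1] at this
    exact this
  have a1 : ∀ q < k2, π (i0 + 3 * q + 2) = w (2 * q + 1) := by
    intro q hq
    have := hspec (2 * q + 1) (by omega)
    rw [hpl] at this
    have e1 : i0 + (3 * ((2 * q + 1) / 2) + (2 * q + 1) % 2 + 1) = i0 + 3 * q + 2 := by omega
    rw [e1] at this
    exact this
  -- a pair with a value `w s` is not prescribed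
  have hno : ∀ x y : ℕ, (∃ s < 2 * k2, x = w s) → Tp M τ k g x y → k < y := by
    rintro x y ⟨s, hs, rfl⟩ (⟨j, hj, ⟨h, -⟩ | ⟨-, h⟩⟩ | h)
    · have := hw1 s hs
      omega
    · exact absurd h (hwg s hs j hj)
    · exact h.2.2
  have hno' : ∀ x y : ℕ, (∃ s < 2 * k2, y = w s) → Tp M τ k g x y → k < x := by
    rintro x y ⟨s, hs, rfl⟩ (⟨j, hj, ⟨-, h⟩ | ⟨h, -⟩⟩ | h)
    · exact absurd h (hwg s hs j hj)
    · have := hw1 s hs
      omega
    · exact h.2.1
  have hT : ∀ i ∈ Set.Icc 1 n, Tq M τ k g k2 w (π i) (π (i + 1)) := by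
    intro i hi
    have hi3 := hi.1
    have hi4 := hi.2
    by_cases hw : i0 ≤ i ∧ i < i0 + 3 * k2
    · obtain ⟨q, r, hq, hr, rfl⟩ : ∃ q r, q < k2 ∧ r < 3 ∧ i = i0 + 3 * q + r :=
        ⟨(i - i0) / 3, (i - i0) % 3, by omega, by omega, by omega⟩
      have b0 := hw1 (2 * q) (by omega)
      have b1 := hw1 (2 * q + 1) (by omega)
      interval_cases r
      · obtain ⟨s1, s2⟩ := hstay q hq.le
        right; right
        rw [Nat.add_zero, a0 q hq]
        exact ⟨Or.inr (Or.inl s2), s1, b0.1⟩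
      · left
        have e : i0 + 3 * q + 1 + 1 = i0 + 3 * q + 2 := by omega
        rw [e, a0 q hq, a1 q hq]
        exact ⟨q, hq, Or.inl ⟨rfl, rfl⟩⟩
      · right; right
        obtain ⟨s1, s2⟩ := hstay (q + 1) hq
        have e : i0 + 3 * q + 2 + 1 = i0 + 3 * (q + 1) := by omega
        rw [e, a1 q hq]
        exact ⟨Or.inr (Or.inr s2), b1.1, s1⟩
    · right
      have n1 : ∀ s < 2 * k2, i ≠ pl s := by
        intro s hs h
        have := hpl1 s hs
        omega
      have p1 := hPr i hi n1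
      have p2 : ((∀ s < 2 * k2, π0 (i + 1) ≠ w s) ∧ π (i + 1) = π0 (i + 1)) ∨
          ((∃ s < 2 * k2, π0 (i + 1) = w s) ∧ M ∣ π (i + 1) ∧ k < π (i + 1)) := by
        rcases Nat.lt_or_ge i n with hlt | hge
        · apply hPr (i + 1) ⟨by omega, by omega⟩
          intro s hs h
          have := hpl1 s hs
          omega
        · have hin : i = n := by omega
          rw [hin, hc.per, h0.per]
          apply hPr 1 ⟨le_rfl, by omega⟩
          intro s hs h
          have := hpl1 s hs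
          omega
      rcases p1 with ⟨-, q1⟩ | ⟨u1, q1, r1⟩
      · rcases p2 with ⟨-, q2⟩ | ⟨u2, q2, r2⟩
        · rw [q1, q2]
          exact hT0 i hi
        · right
          refine ⟨Or.inr (Or.inr q2), ?_, r2⟩
          rw [q1]
          exact hno' _ _ u2 (hT0 i hi)
      · right
        refine ⟨Or.inr (Or.inl q1), r1, ?_⟩
        rcases p2 with ⟨-, q2⟩ | ⟨-, -, r2⟩
        · rw [q2]
          exact hno _ _ u1 (hT0 i hi)
        · exact r2
  refine ⟨π, hc, hT, ?_, ?_⟩
  · -- the count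
    set Y := (range (2 * k2)).image w ∪ (range (2 * k2)).image (fun s => π0 (pl s)) with hY
    have hYc : Y.card ≤ 4 * k2 := by
      have h1 := card_union_le ((range (2 * k2)).image w)
        ((range (2 * k2)).image (fun s => π0 (pl s)))
      have h2 : ((range (2 * k2)).image (fun s => π0 (pl s))).card ≤ 2 * k2 :=
        card_image_le.trans (by rw [card_range])
      have h3 : ((range (2 * k2)).image w).card ≤ 2 * k2 :=
        card_image_le.trans (by rw [card_range])
      rw [← hY] at h1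
      omega
    have hYw : ∀ s < 2 * k2, w s ∈ Y := fun s hs =>
      mem_union_left _ (mem_image_of_mem w (mem_range.2 hs))
    have hYfix : ∀ v, v ∉ Y → ρ v = v := by
      intro v hv
      apply hρ2
      intro s hs
      refine ⟨fun h => hv ?_, fun h => hv ?_⟩
      · rw [h]
        exact hYw s hs
      · rw [h, hY]
        exact mem_union_right _ (mem_image_of_mem (fun s => π0 (pl s)) (mem_range.2 hs))
    have hD : ((Icc 1 n).filter (fun i => Mixp M k g (π0 i) (π0 (i + 1)))).card ≤ D0 := by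
      have e : cnt n (Mixp M k g) π0 =
          ((Icc 1 n).filter (fun i => Mixp M k g (π0 i) (π0 (i + 1)))).card := by
        unfold cnt
        congr
      rw [← e]
      exact hD0
    have e : cnt n (Mixq M k g k2 w) π =
        ((Icc 1 n).filter (fun i => Mixq M k g k2 w (π i) (π (i + 1)))).card := by
      unfold cnt
      congr
    rw [e]
    have hsub : (Icc 1 n).filter (fun i => Mixq M k g k2 w (π i) (π (i + 1))) ⊆
        ((Icc 1 n).filter (fun i => Mixp M k g (π0 i) (π0 (i + 1))) ∪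
          (Icc 1 n).filter (fun i => π0 i ∈ Y)) ∪ (Icc 1 n).filter (fun i => π0 (i + 1) ∈ Y) := by
      intro i hi
      obtain ⟨h1, h2⟩ := mem_filter.1 hi
      rw [mem_union, mem_union, mem_filter, mem_filter, mem_filter]
      by_cases hy1 : π0 i ∈ Y
      · exact Or.inl (Or.inr ⟨h1, hy1⟩)
      by_cases hy2 : π0 (i + 1) ∈ Y
      · exact Or.inr ⟨h1, hy2⟩
      refine Or.inl (Or.inl ⟨h1, ?_⟩)
      have f1 : π i = π0 i := hYfix _ hy1
      have f2 : π (i + 1) = π0 (i + 1) := hYfix _ hy2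
      rw [f1, f2] at h2
      rcases h2 with h2 | ⟨j, hj, ⟨h3, -⟩ | ⟨-, h3⟩⟩
      · exact h2
      · exact absurd (by rw [h3]; exact hYw _ (by omega)) hy1
      · exact absurd (by rw [h3]; exact hYw _ (by omega)) hy1
    have c1 := (card_le_card hsub).trans (card_union_le _ _)
    have c2 := card_union_le ((Icc 1 n).filter (fun i => Mixp M k g (π0 i) (π0 (i + 1))))
      ((Icc 1 n).filter (fun i => π0 i ∈ Y))
    have c3 := card_place h0 Y
    have c4 := card_place' h0 Y
    omega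
  · -- the prescribed pairs
    have e : cnt n (Prot2 k2 w) π =
        ((Icc 1 n).filter (fun i => Prot2 k2 w (π i) (π (i + 1)))).card := by
      unfold cnt
      congr
    rw [e]
    have h1 : ((range k2).image (fun q => i0 + 3 * q + 1)).card = k2 := by
      rw [card_image_of_injOn, card_range]
      intro q _ q' _ h
      have h' : i0 + 3 * q + 1 = i0 + 3 * q' + 1 := h
      omega
    calc k2 = ((range k2).image (fun q => i0 + 3 * q + 1)).card := h1.symm
      _ ≤ _ := by
        apply card_le_card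
        intro i hi
        obtain ⟨q, hq, rfl⟩ := mem_image.1 hi
        rw [mem_range] at hq
        refine mem_filter.2 ⟨mem_Icc.2 ⟨by omega, by omega⟩, ?_⟩
        have e : i0 + 3 * q + 1 + 1 = i0 + 3 * q + 2 := by omega
        rw [e, a0 q hq, a1 q hq]
        exact ⟨q, hq, Or.inl ⟨rfl, rfl⟩⟩

end Pool.Agent.H34.CT
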