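import Pool.Agent.H34.CR.Super
import Pool.Agent.H34.CS.Prep
import Pool.Agent.H47.CR.Init
import Pool.Agent.H47.CR.SW
import Pool.Agent.H34.CT.Structq
import Pool.Agent.H34.CT.Perm
import Pool.Agent.H34.CT.Match
import Pool.Agent.H34.CT.T3

/-!
Circular permutations of `1, …, n` with at least `n ^ c` prime numbers, prime numbers at all small
entries, and all numbers squarefree, with few prime factors, all above `(log n) ^ (6/5)`.
-/

set_option autoImplicit false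

namespace Pool.Agent.H34.CT

open Finset Real Pool.Agent.H34.CP Pool.Agent.H34.CQ Pool.Agent.H34.CR Pool.Agent.H34.CS

/-- all conditions at once, prime numbers at the small entries, and `n ^ c` prime numbers -/
theorem common2 : ∃ c : ℝ, 0 < c ∧ ∀ ε : ℝ, 0 < ε →
    ∃ r : ℕ, ∀ A : ℕ, ∃ n0 : ℕ, ∀ n : ℕ, n0 ≤ n → ∃ σ : Equiv.Perm (Fin n),
      (n : ℝ) ^ c ≤ ((univ.filter (fun i : Fin n =>
        (2 * ((σ i).val + 1) * ((σ (finRotate n i)).val + 1) + 1).Prime)).card : ℝ) ∧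
      ∀ i : Fin n,
      (fun x y : ℕ => ((x : ℝ) ≤ (log n) ^ A ∨ (y : ℝ) ≤ (log n) ^ A → (2 * x * y + 1).Prime) ∧
        Squarefree (2 * x * y + 1) ∧
        (∀ p : ℕ, p.Prime → p ∣ 2 * x * y + 1 → (log n) ^ (6 / 5 : ℝ) < p) ∧
        ((2 * x * y + 1).primeFactors.card : ℝ) ≤ 3000 * log (log n) ∧
        ∃ u w : ℕ, 2 * x * y + 1 = u * w ∧ (u : ℝ) ≤ (n : ℝ) ^ ε ∧ w.primeFactors.card ≤ r)
      ((σ i).val + 1) ((σ (finRotate n i)).val + 1) := by
  classical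
  obtain ⟨cm, hcm, n3, hmatch⟩ := matching
  set c2 := min cm (1 / 40) with hc2
  have hc20 : 0 < c2 := lt_min hcm (by norm_num)
  have hc2m : c2 ≤ cm := min_le_left _ _
  have hc240 : c2 ≤ 1 / 40 := min_le_right _ _
  refine ⟨c2 / 2, by positivity, fun ε hε => ?_⟩
  set ε1 := min ε 1 with hε1d
  have hε1 : 0 < ε1 := lt_min hε one_pos
  have hε11 : ε1 ≤ 1 := min_le_right _ _
  have h1 : ∀ᶠ x : ℝ in Filter.atTop, 383 * log 2 ≤ log (log x) :=
    (Real.tendsto_log_atTop.comp Real.tendsto_log_atTop).eventually (Filter.eventually_ge_atTop _)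
  have h2 : ∀ᶠ x : ℝ in Filter.atTop, ‖(log x) ^ (12 / 5 : ℝ)‖ ≤ (1 / 10) * ‖x ^ (1 : ℝ)‖ :=
    (isLittleO_log_rpow_rpow_atTop (12 / 5) one_pos).bound (by norm_num)
  have h2' : ∀ᶠ x : ℝ in Filter.atTop, 2400 / ε1 ≤ log x :=
    Real.tendsto_log_atTop.eventually (Filter.eventually_ge_atTop _)
  obtain ⟨x0, hx0⟩ := Filter.eventually_atTop.1 ((h1.and h2).and h2')
  refine ⟨⌈24000 / ε1⌉₊, ?_⟩
  intro A
  obtain ⟨n1, hpart⟩ := Pool.Agent.H47.CR.partners (A + 2)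
  obtain ⟨n2, hpow⟩ := Pool.Agent.H47.CR.ev_pow (2 ^ 20) (by norm_num) ((A + 2) * 20)
  have e1 : ∀ᶠ x : ℝ in Filter.atTop, (2 : ℝ) ≤ x ^ (c2 / 2) :=
    (tendsto_rpow_atTop (by positivity)).eventually_ge_atTop 2
  have e2 : ∀ᶠ x : ℝ in Filter.atTop, ‖(log x) ^ ((A + 2 : ℕ) : ℝ)‖ ≤ (1 / 3) * ‖x ^ cm‖ :=
    (isLittleO_log_rpow_rpow_atTop _ hcm).bound (by norm_num)
  obtain ⟨x2, hx2⟩ := Filter.eventually_atTop.1 (e1.and e2)
  refine ⟨max (max (max 16 ⌈x0⌉₊) (max n1 n2)) (max n3 ⌈x2⌉₊), ?_⟩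
  intro n hn''
  have hn' : max (max 16 ⌈x0⌉₊) (max n1 n2) ≤ n := (le_max_left _ _).trans hn''
  have hnn3 : n3 ≤ n := (le_max_left _ _).trans ((le_max_right _ _).trans hn'')
  obtain ⟨hx2a, hx2b⟩ := hx2 n (Nat.ceil_le.1
    ((le_max_right _ _).trans ((le_max_right _ _).trans hn'')))
  have hn : max 16 ⌈x0⌉₊ ≤ n := (le_max_left _ _).trans hn'
  have hnn1 : n1 ≤ n := (le_max_left _ _).trans ((le_max_right _ _).trans hn')
  have hnn2 : n2 ≤ n := (le_max_right _ _).trans ((le_max_right _ _).trans hn')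
  set r := ⌈24000 / ε1⌉₊ with hr
  have hrR : 24000 / ε1 ≤ (r : ℝ) := Nat.le_ceil _
  have hn16 : 16 ≤ n := (le_max_left _ _).trans hn
  have hnR : (0 : ℝ) < n := by
    have : 0 < n := by omega
    exact_mod_cast this
  obtain ⟨⟨h3, h4⟩, h4'⟩ := hx0 n (Nat.ceil_le.1 ((le_max_right _ _).trans hn))
  have hlog2 : log 2 < 0.6931471808 := log_two_lt_d9
  have hlog2' : 0.6931471803 < log 2 := log_two_gt_d9
  set x := log n with hx
  have hx0' : 0 < x := by
    have : 0 < 2400 / ε1 := by positivity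
    linarith
  have hεx : 2400 ≤ ε1 * x := by
    have h5 : ε1 * (2400 / ε1) ≤ ε1 * x := mul_le_mul_of_nonneg_left h4' hε1.le
    have h6 : ε1 * (2400 / ε1) = 2400 := by field_simp
    linarith
  have hxbig : (10 : ℝ) ^ 7 ≤ x := by
    have h5 : log ((2 : ℝ) ^ 383) ≤ log x := by
      rw [log_pow]
      push_cast
      exact h3
    have h6 := (log_le_log_iff (by positivity) hx0').1 h5
    have h7 : (10 : ℝ) ^ 7 ≤ (2 : ℝ) ^ 24 := by norm_num
    have h8 : (2 : ℝ) ^ 24 ≤ (2 : ℝ) ^ 383 := pow_le_pow_right₀ (by norm_num) (by norm_num)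
    exact h7.trans (h8.trans h6)
  set z := ⌊x ^ (6 / 5 : ℝ)⌋₊ with hz
  have hzle : (z : ℝ) ≤ x ^ (6 / 5 : ℝ) := Nat.floor_le (by positivity)
  have hzlt : x ^ (6 / 5 : ℝ) < z + 1 := Nat.lt_floor_add_one _
  set L := Nat.log 2 n with hL
  have hLn : 2 ^ L ≤ n := Nat.pow_log_le_self 2 (by omega)
  have hnL : n < 2 ^ (L + 1) := Nat.lt_pow_succ_log_self (by norm_num) n
  have hxL : x ≤ (L + 1) * log 2 := by
    have h5 : (n : ℝ) ≤ 2 ^ (L + 1) := by exact_mod_cast hnL.le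
    have h6 := log_le_log hnR h5
    rw [log_pow] at h6
    push_cast at h6
    exact h6
  have hLx : (L : ℝ) * log 2 ≤ x := by
    have h5 : (2 : ℝ) ^ L ≤ n := by exact_mod_cast hLn
    have h6 := log_le_log (by positivity) h5
    rw [log_pow] at h6
    exact h6
  set t := L / 20 with ht
  set z0 := t / 2 with hz0
  have hLz0 : L ≤ 40 * z0 + 39 := by omega
  have hLz0R : (L : ℝ) ≤ 40 * z0 + 39 := by exact_mod_cast hLz0
  have hz0LR : 40 * (z0 : ℝ) ≤ L := by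
    have : 40 * z0 ≤ L := by omega
    exact_mod_cast this
  have hLbig : (10 : ℝ) ^ 6 ≤ L := by nlinarith
  have hz01 : 1000 ≤ z0 := by
    have h5 : (1000 : ℝ) ≤ z0 := by linarith
    exact_mod_cast h5
  have hz0x : x / 64 ≤ z0 := by nlinarith
  have hz0z : z0 ≤ z := by
    apply Nat.le_floor
    have h5 : (z0 : ℝ) ≤ x := by nlinarith
    have h6 : x ≤ x ^ (6 / 5 : ℝ) := by
      conv_lhs => rw [← rpow_one x]
      exact rpow_le_rpow_of_exponent_le (by linarith) (by norm_num)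
    linarith
  set a := Nat.log 2 z0 with ha
  set b := Nat.log 2 z with hb
  have ha1 : 1 ≤ a := Nat.le_log_of_pow_le (by norm_num) (by omega)
  have ha2 : 2 ^ a ≤ z0 := Nat.pow_log_le_self 2 (by omega)
  have ha3 : z0 < 2 ^ (a + 1) := Nat.lt_pow_succ_log_self (by norm_num) z0
  have hb1 : z < 2 ^ (b + 1) := Nat.lt_pow_succ_log_self (by norm_num) z
  have hb2 : 2 ^ b ≤ z := Nat.pow_log_le_self 2 (by omega)
  have haR : (1 : ℝ) ≤ a := by exact_mod_cast ha1
  have hblog : (b : ℝ) * log 2 ≤ 6 / 5 * log x := by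
    have h5 : (2 : ℝ) ^ b ≤ x ^ (6 / 5 : ℝ) := by
      refine le_trans ?_ hzle
      exact_mod_cast hb2
    have h6 := log_le_log (by positivity) h5
    rw [log_pow, log_rpow hx0'] at h6
    exact h6
  have halog : log x - 6 * log 2 ≤ (a + 1) * log 2 := by
    have h5 : x / 64 ≤ (2 : ℝ) ^ (a + 1) := by
      refine hz0x.trans ?_
      exact_mod_cast ha3.le
    have h6 := log_le_log (by positivity) h5
    rw [log_pow, log_div hx0'.ne' (by norm_num), show (64 : ℝ) = 2 ^ 6 by norm_num, log_pow] at h6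
    push_cast at h6
    exact h6
  have hab : ((b : ℝ) + 1 - a) * (2 / a) ≤ 9 / 20 := by
    have h5 : 40 * (b : ℝ) + 40 ≤ 49 * a := by
      have h6 : (40 * (b : ℝ) + 40) * log 2 ≤ (49 * a) * log 2 := by nlinarith
      exact le_of_mul_le_mul_right h6 (by linarith)
    rw [show ((b : ℝ) + 1 - a) * (2 / a) = (2 * ((b : ℝ) + 1 - a)) / a by ring,
      div_le_iff₀ (by linarith)]
    linarith
  -- the scale `K`
  set K := 2 ^ t with hKd
  have ht65 : 65 ≤ t := by omega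
  have hK65 : 2 ^ 65 ≤ K := Nat.pow_le_pow_right (by norm_num) ht65
  have hKpos : 0 < K := Nat.pow_pos (by norm_num)
  have hn1 : K ^ 20 ≤ n := by
    calc K ^ 20 = 2 ^ (t * 20) := by rw [hKd, ← pow_mul]
      _ ≤ 2 ^ L := Nat.pow_le_pow_right (by norm_num) (by omega)
      _ ≤ n := hLn
  have hn2 : n ≤ 2 ^ 20 * K ^ 20 := by
    calc n ≤ 2 ^ (L + 1) := hnL.le
      _ ≤ 2 ^ (20 + t * 20) := Nat.pow_le_pow_right (by norm_num) (by omega)
      _ = 2 ^ 20 * K ^ 20 := by rw [pow_add, hKd, ← pow_mul]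
  set S := (range (z0 + 1)).filter Nat.Prime with hS
  have hSp : ∀ p ∈ S, p.Prime := fun p hp => (mem_filter.1 hp).2
  set M := ∏ p ∈ S, p with hMdef
  have hM : 0 < M := prod_pos fun p hp => (hSp p hp).pos
  have hM4 : M ≤ 4 ^ z0 := primorial_le_four_pow z0
  have hMK : M ≤ K := by
    refine hM4.trans ?_
    calc 4 ^ z0 = 2 ^ (2 * z0) := by rw [pow_mul]; norm_num
      _ ≤ 2 ^ t := Nat.pow_le_pow_right (by norm_num) (by omega)
  have hMR : (1 : ℝ) ≤ M := by exact_mod_cast hM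
  have hMz : ∀ p : ℕ, p.Prime → z0 < p → ¬ p ∣ M := by
    intro p hp hlt hpd
    obtain ⟨q, hq, hpq⟩ := (hp.prime.dvd_finsetProd_iff _).1 hpd
    have h1 : p = q := (Nat.prime_dvd_prime_iff_eq hp (hSp q hq)).1 hpq
    have h2 := mem_range.1 (mem_filter.1 hq).1
    omega
  have hMz' : ∀ p : ℕ, p.Prime → ¬ p ∣ M → z0 < p := by
    intro p hp hpM
    by_contra hcon
    exact hpM (dvd_prod_of_mem _ (mem_filter.2 ⟨mem_range.2 (by omega), hp⟩))
  have hMS : ∀ p : ℕ, p.Prime → p ∣ M → p ∈ S := by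
    intro p hp hpd
    refine mem_filter.2 ⟨mem_range.2 ?_, hp⟩
    by_contra hcon
    exact hMz p hp (by omega) hpd
  have hex := exists_partner S hSp
  have hcast := eq_of_casts S hSp
  choose τ hτlt hτ using hex
  rw [← hMdef] at hτlt hcast
  have hinv : ∀ r, r < M → τ (τ r) = r := by
    intro r hr
    apply hcast _ _ (hτlt _) hr
    intro p hp
    have : Fact p.Prime := ⟨hSp p hp⟩
    rw [hτ _ p hp, hτ _ p hp, inv_neg, inv_inv, neg_neg]
  have hτ0 : τ 0 = 0 := by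
    apply hcast _ _ (hτlt _) hM
    intro p hp
    have : Fact p.Prime := ⟨hSp p hp⟩
    rw [hτ _ p hp]
    simp
  have hlocal : ∀ x y, Allowed M τ x y → ∀ p ∈ S, ¬ p ∣ 2 * x * y + 1 :=
    fun x y h => local_ok S hSp τ hτ x y h
  have hKK : K * K ≤ n := by
    calc K * K = K ^ 2 := by ring
      _ ≤ K ^ 20 := Nat.pow_le_pow_right hKpos (by norm_num)
      _ ≤ n := hn1
  obtain ⟨σ0, hc0, hT0, hD0⟩ := init M n hM ((Nat.mul_le_mul hMK hMK).trans hKK) τ hτlt hinv hτ0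
  -- sizes
  have hz2 : 10 * z ^ 2 ≤ n := by
    have h5 : (z : ℝ) ^ 2 ≤ x ^ (12 / 5 : ℝ) := by
      have h6 : (z : ℝ) ^ 2 ≤ (x ^ (6 / 5 : ℝ)) ^ 2 := by gcongr
      rw [← rpow_natCast, ← rpow_natCast, ← rpow_mul hx0'.le] at h6
      rw [← rpow_natCast]
      norm_num at h6 ⊢
      exact h6
    rw [norm_of_nonneg (by positivity), norm_of_nonneg (by positivity), rpow_one] at h4
    have h7 : 10 * (z : ℝ) ^ 2 ≤ n := by linarith
    exact_mod_cast h7
  have hzK : 1000 * z ≤ K ^ 19 := by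
    apply (Nat.pow_le_pow_iff_left (two_ne_zero)).1
    have h5 : 2 ^ 37 * K ^ 20 ≤ K ^ 38 := by
      calc 2 ^ 37 * K ^ 20 ≤ K ^ 18 * K ^ 20 := by
            apply Nat.mul_le_mul_right
            calc 2 ^ 37 ≤ 2 ^ 65 := by norm_num
              _ ≤ K := hK65
              _ ≤ K ^ 18 := Nat.le_self_pow (by norm_num) K
        _ = K ^ 38 := by ring
    calc (1000 * z) ^ 2 = 10 ^ 5 * (10 * z ^ 2) := by ring
      _ ≤ 10 ^ 5 * (2 ^ 20 * K ^ 20) := Nat.mul_le_mul_left _ (hz2.trans hn2)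
      _ ≤ 2 ^ 17 * (2 ^ 20 * K ^ 20) := Nat.mul_le_mul_right _ (by norm_num)
      _ = 2 ^ 37 * K ^ 20 := by ring
      _ ≤ K ^ 38 := h5
      _ = (K ^ 19) ^ 2 := by ring
  have hKlog : x ≤ 1200 * log K := by
    have h5 : log (K : ℝ) = t * log 2 := by
      rw [hKd]
      push_cast
      rw [log_pow]
    have h6 : (L : ℝ) ≤ 20 * t + 19 := by
      have : L ≤ 20 * t + 19 := by omega
      exact_mod_cast this
    have h7 : (65 : ℝ) ≤ t := by exact_mod_cast ht65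
    rw [h5]
    nlinarith
  have hLL : 1 ≤ log x := by linarith
  -- the small entries
  set k := ⌊x ^ (A + 2)⌋₊ with hk
  have hx1 : 1 ≤ x := by linarith
  have hkle : (k : ℝ) ≤ x ^ (A + 2) := Nat.floor_le (by positivity)
  have hkK : k ≤ K := by
    have h5 : (2 : ℝ) ^ 20 * (k : ℝ) ^ 20 ≤ n := by
      have h6 : (k : ℝ) ^ 20 ≤ (x ^ (A + 2)) ^ 20 := by gcongr
      rw [← pow_mul] at h6
      have h7 := hpow n hnn2
      rw [← hx] at h7
      linarith
    have h6 : 2 ^ 20 * k ^ 20 ≤ n := by exact_mod_cast h5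
    have h7 : k ^ 20 ≤ K ^ 20 := by
      have h8 : 2 ^ 20 * k ^ 20 ≤ 2 ^ 20 * K ^ 20 := h6.trans hn2
      exact Nat.le_of_mul_le_mul_left h8 (by norm_num)
    exact (Nat.pow_le_pow_iff_left (by norm_num)).1 h7
  have hzk : z ≤ k := by
    apply Nat.le_floor
    refine hzle.trans ?_
    calc x ^ (6 / 5 : ℝ) ≤ x ^ (2 : ℝ) := rpow_le_rpow_of_exponent_le hx1 (by norm_num)
      _ = x ^ 2 := by norm_cast
      _ ≤ x ^ (A + 2) := pow_le_pow_right₀ hx1 (by omega)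
  obtain ⟨g, hg1, hg2⟩ := Pool.Agent.H47.CR.exists_sdr k
    (fun j => (Ioc k n).filter (fun b => (2 * (j + 1) * b + 1).Prime))
    (fun j hj => hpart n hnn1 k hkle (j + 1) (by omega) (by omega))
  have hgI : ∀ j < 2 * k, k < g j ∧ g j ≤ n := fun j hj => mem_Ioc.1 (mem_filter.1 (hg1 j hj)).1
  have hgp : ∀ j < 2 * k, (2 * (j / 2 + 1) * g j + 1).Prime :=
    fun j hj => (mem_filter.1 (hg1 j hj)).2
  have hprime : ∀ u v, Prot k g u v → (2 * u * v + 1).Prime ∧ z < 2 * u * v + 1 := by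
    intro u v huv
    have main : ∀ j < 2 * k, (2 * (j / 2 + 1) * g j + 1).Prime ∧ z < 2 * (j / 2 + 1) * g j + 1 := by
      intro j hj
      refine ⟨hgp j hj, ?_⟩
      have h5 := (hgI j hj).1
      have h6 : g j ≤ 2 * (j / 2 + 1) * g j := Nat.le_mul_of_pos_left _ (by omega)
      omega
    obtain ⟨j, hj, ⟨h5, h6⟩ | ⟨h5, h6⟩⟩ := huv
    · rw [h5, h6]
      exact main j hj
    · rw [h5, h6, show 2 * g j * (j / 2 + 1) + 1 = 2 * (j / 2 + 1) * g j + 1 by ring]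
      exact main j hj
  have hr1 : 1 ≤ r := by
    have h5 : (0 : ℝ) < 24000 / ε1 := by positivity
    exact Nat.ceil_pos.2 h5
  have hnice : ∀ u v, (2 * u * v + 1).Prime ∧ z < 2 * u * v + 1 →
      Nice2 ε1 r n z0 z (2 * u * v + 1) := by
    intro u v huv
    obtain ⟨h5, h6⟩ := huv
    have h7 : (2 * u * v + 1).primeFactors.card = 1 := by rw [h5.primeFactors, card_singleton]
    refine ⟨h5.squarefree, ?_, ?_, 1, 2 * u * v + 1, (one_mul _).symm, ?_, by rw [h7]; exact hr1⟩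
    · intro p hp hpd
      obtain ⟨h8, h9⟩ := mem_filter.1 hp
      have h10 := (mem_Ioc.1 h8).2
      have h11 := (Nat.prime_dvd_prime_iff_eq h9 h5).1 hpd
      omega
    · rw [h7]
      push_cast
      linarith
    · push_cast
      exact one_le_rpow (by exact_mod_cast (by omega : 1 ≤ n)) hε1.le
  have hnMK : K ^ 19 ≤ n / M := by
    rw [Nat.le_div_iff_mul_le hM]
    calc K ^ 19 * M ≤ K ^ 19 * K := Nat.mul_le_mul_left _ hMK
      _ = K ^ 20 := by ring
      _ ≤ n := hn1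
  have hK2 : 1 ≤ K := hKpos
  -- the isolated pairs
  have hnR1 : (1 : ℝ) ≤ n := by exact_mod_cast (by omega : 1 ≤ n)
  set k2 := ⌊(n : ℝ) ^ c2⌋₊ with hk2
  have hk2le : (k2 : ℝ) ≤ (n : ℝ) ^ c2 := Nat.floor_le (by positivity)
  have hk2lt : (n : ℝ) ^ c2 < k2 + 1 := Nat.lt_floor_add_one _
  have hk2big : (n : ℝ) ^ (c2 / 2) ≤ k2 := by
    have h5 : (n : ℝ) ^ c2 = (n : ℝ) ^ (c2 / 2) * (n : ℝ) ^ (c2 / 2) := by
      rw [← rpow_add hnR]
      congr 1
      ring
    nlinarith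
  have hk2K : k2 ≤ K := by
    have h5 : (k2 : ℝ) ^ 20 ≤ (n : ℝ) ^ (1 / 2 : ℝ) := by
      have h6 : (k2 : ℝ) ^ 20 ≤ ((n : ℝ) ^ c2) ^ 20 := by gcongr
      refine h6.trans ?_
      rw [← rpow_natCast, ← rpow_mul hnR.le]
      apply rpow_le_rpow_of_exponent_le hnR1
      push_cast
      linarith
    have h6 : (2 : ℝ) ^ 20 ≤ (n : ℝ) ^ (1 / 2 : ℝ) := by
      have h7 : 2 ^ 40 ≤ n := by
        calc 2 ^ 40 ≤ 2 ^ 65 := by norm_num
          _ ≤ K := hK65
          _ ≤ K ^ 20 := Nat.le_self_pow (by norm_num) K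
          _ ≤ n := hn1
      have h8 : ((2 : ℝ) ^ 40) ^ (1 / 2 : ℝ) ≤ (n : ℝ) ^ (1 / 2 : ℝ) := by
        apply rpow_le_rpow (by positivity) _ (by norm_num)
        exact_mod_cast h7
      rw [← rpow_natCast, ← rpow_mul (by norm_num)] at h8
      norm_num at h8 ⊢
      exact h8
    have h7 : (2 : ℝ) ^ 20 * (k2 : ℝ) ^ 20 ≤ n := by
      have h8 : (n : ℝ) ^ (1 / 2 : ℝ) * (n : ℝ) ^ (1 / 2 : ℝ) = n := by
        rw [← rpow_add hnR]
        norm_num
      calc (2 : ℝ) ^ 20 * (k2 : ℝ) ^ 20 ≤ (n : ℝ) ^ (1 / 2 : ℝ) * (n : ℝ) ^ (1 / 2 : ℝ) :=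
            mul_le_mul h6 h5 (by positivity) (by positivity)
        _ = n := h8
    have h8 : 2 ^ 20 * k2 ^ 20 ≤ n := by exact_mod_cast h7
    have h9 : k2 ^ 20 ≤ K ^ 20 := by
      have h10 : 2 ^ 20 * k2 ^ 20 ≤ 2 ^ 20 * K ^ 20 := h8.trans hn2
      exact Nat.le_of_mul_le_mul_left h10 (by norm_num)
    exact (Nat.pow_le_pow_iff_left (by norm_num)).1 h9
  set F0 := Icc 1 k ∪ (range (2 * k)).image g with hF0
  have hF0c : (F0.card : ℝ) ≤ (n : ℝ) ^ cm := by
    have h5 : F0.card ≤ 3 * k := by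
      refine (card_union_le _ _).trans ?_
      have h6 : ((range (2 * k)).image g).card ≤ 2 * k := card_image_le.trans (card_range _).le
      rw [Nat.card_Icc]
      omega
    have h6 : (F0.card : ℝ) ≤ 3 * k := by exact_mod_cast h5
    have h7 : ‖(log (n : ℝ)) ^ ((A + 2 : ℕ) : ℝ)‖ = x ^ (A + 2) := by
      rw [rpow_natCast, norm_of_nonneg (by positivity)]
    rw [h7, norm_of_nonneg (by positivity)] at hx2b
    linarith
  obtain ⟨w, hw1, hw2, hw3⟩ := hmatch n hnn3 F0 hF0c k2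
    (hk2le.trans (rpow_le_rpow_of_exponent_le hnR1 hc2m))
  have hwk : ∀ i < 2 * k2, k < w i ∧ w i ≤ n := by
    intro i hi
    obtain ⟨h5, h6, h7⟩ := hw1 i hi
    refine ⟨?_, h6⟩
    by_contra hcon
    exact h7 (mem_union_left _ (mem_Icc.2 ⟨h5, by omega⟩))
  have hwg : ∀ i < 2 * k2, ∀ j < 2 * k, w i ≠ g j := by
    intro i hi j hj h
    exact (hw1 i hi).2.2 (mem_union_right _ (mem_image.2 ⟨j, mem_range.2 hj, h.symm⟩))
  have hprime2 : ∀ u v, Prot2 k2 w u v → (2 * u * v + 1).Prime ∧ z < 2 * u * v + 1 := by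
    intro u v huv
    have main : ∀ j < k2, (2 * w (2 * j) * w (2 * j + 1) + 1).Prime ∧
        z < 2 * w (2 * j) * w (2 * j + 1) + 1 := by
      intro j hj
      refine ⟨hw3 j hj, ?_⟩
      have h5 := (hwk (2 * j) (by omega)).1
      have h6 := (hwk (2 * j + 1) (by omega)).1
      have h7 : w (2 * j + 1) ≤ 2 * w (2 * j) * w (2 * j + 1) :=
        Nat.le_mul_of_pos_left _ (by omega)
      omega
    obtain ⟨j, hj, ⟨h5, h6⟩ | ⟨h5, h6⟩⟩ := huv
    · rw [h5, h6]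
      exact main j hj
    · rw [h5, h6, show 2 * w (2 * j + 1) * w (2 * j) + 1 = 2 * w (2 * j) * w (2 * j + 1) + 1 by ring]
      exact main j hj
  have hsize : (2 * M + 6 * k + 1) * (4 * k + 1) + 3 * k < n / M := by
    refine lt_of_lt_of_le ?_ hnMK
    calc (2 * M + 6 * k + 1) * (4 * k + 1) + 3 * k
        ≤ (2 * K + 6 * K + K) * (4 * K + K) + 3 * K := by gcongr
      _ ≤ 48 * (K * K) := by nlinarith
      _ < K * (K * K) := by
          apply Nat.mul_lt_mul_of_pos_right _ (Nat.mul_pos hKpos hKpos)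
          exact lt_of_lt_of_le (by norm_num) hK65
      _ = K ^ 3 := by ring
      _ ≤ K ^ 19 := Nat.pow_le_pow_right hKpos (by norm_num)
  obtain ⟨σ1, hc1, hT1, hD1⟩ := prep M n k (2 * M) hM τ g hgI hg2 hsize σ0 hc0 hT0 hD0
  have hsize2 : (2 * M + 12 * k + 6 * k + 4 * k2 + 1) * (3 * k2 + 1) + 3 * k + 2 * k2 < n / M := by
    refine lt_of_lt_of_le ?_ hnMK
    calc (2 * M + 12 * k + 6 * k + 4 * k2 + 1) * (3 * k2 + 1) + 3 * k + 2 * k2
        ≤ (2 * K + 12 * K + 6 * K + 4 * K + K) * (3 * K + K) + 3 * K + 2 * K := by gcongr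
      _ ≤ 105 * (K * K) := by nlinarith
      _ < K * (K * K) := by
          apply Nat.mul_lt_mul_of_pos_right _ (Nat.mul_pos hKpos hKpos)
          exact lt_of_lt_of_le (by norm_num) hK65
      _ = K ^ 3 := by ring
      _ ≤ K ^ 19 := Nat.pow_le_pow_right hKpos (by norm_num)
  obtain ⟨σ2, hc3, hT3, hD3, hP3⟩ := prep2 M n k k2 (2 * M + 12 * k) hM τ g w hwk hw2 hwg hsize2
    σ1 hc1 hT1 hD1
  set β := ⌊(48 / 100 : ℝ) * ((n : ℝ) / M)⌋₊ with hβ
  have hnM0 : (0 : ℝ) ≤ (n : ℝ) / M := by positivity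
  have hβR : (β : ℝ) ≤ (48 / 100 : ℝ) * ((n : ℝ) / M) := Nat.floor_le (by positivity)
  have hbig : 2 * M + 12 * k + 8 * k2 + 3 + 2 * β < n / M := by
    have h1 : (n : ℝ) / M < ((n / M : ℕ) : ℝ) + 1 := by
      rw [div_lt_iff₀ (by positivity)]
      have h2 := Nat.lt_mul_div_succ n hM
      have h2' : (n : ℝ) < ((M * (n / M + 1) : ℕ) : ℝ) := by exact_mod_cast h2
      push_cast at h2'
      linarith
    have h3 : ((2 * M + 12 * k + 8 * k2 + 3 + 2 * β : ℕ) : ℝ) < ((n / M : ℕ) : ℝ) := by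
      push_cast
      have h4 : 1000 * ((M : ℝ) + k + k2) ≤ n / M := by
        rw [le_div_iff₀ (by positivity)]
        have h5 : 1000 * (M + k + k2) * M ≤ n := by
          calc 1000 * (M + k + k2) * M ≤ 1000 * (K + K + K) * K := by gcongr
            _ = 3000 * K * K := by ring
            _ ≤ K * K * K := by
                apply Nat.mul_le_mul_right
                apply Nat.mul_le_mul_right
                exact le_trans (by norm_num) hK65
            _ = K ^ 3 := by ring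
            _ ≤ K ^ 20 := Nat.pow_le_pow_right hKpos (by norm_num)
            _ ≤ n := hn1
        exact_mod_cast h5
      have hk0 : (0 : ℝ) ≤ k := Nat.cast_nonneg k
      have hk20 : (0 : ℝ) ≤ k2 := Nat.cast_nonneg k2
      linarith
    exact_mod_cast h3
  obtain ⟨σ, hc, hσ, hσ2⟩ := structq M n (n / M) (2 * M + 12 * k + 8 * k2) β k k2 g w hw2 hM τ hτlt
    hinv hτ0
    (fun x y => Nice2 ε1 r n z0 z (2 * x * y + 1))
    (fun x y h => by
      have h1 : 2 * y * x + 1 = 2 * x * y + 1 := by ring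
      rw [h1]
      exact h)
    (fun u v h => hnice u v (hprime u v h)) (fun u v h => hnice u v (hprime2 u v h))
    (fun r hr F hF => class_card M n r hM hr F hF)
    (by
      intro w hw c hc hcx F hF
      apply Nat.le_floor
      have hw' := mem_Icc.1 hw
      apply bad_count ε1 hε1 hε11 M n w c z0 z a b K r hM hMK hz01 hMz hMz' ha1 ha2 hb1 hz0z hab
        hK65 hn1 hn2 hw'.1 hw'.2 hzK hLL hεx hKlog hrR F
      intro y hy
      obtain ⟨h1, h2, h3⟩ := hF y hy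
      have h4 : 2 * y * w + 1 = 2 * w * y + 1 := by ring
      refine ⟨mem_part.2 ⟨h1, h2, ?_⟩, ?_⟩
      · intro p hp hpd
        rw [h4]
        apply hlocal w y _ p (hMS p hp hpd)
        rcases hcx with h | h | h
        · left
          rw [h2, h]
        · exact Or.inr (Or.inl h)
        · right
          right
          rw [h] at h2
          exact Nat.dvd_of_mod_eq_zero h2
      · rw [h4]
        exact h3)
    hbig σ2 hc3 hT3 hD3 hP3
  have hn0 : 1 ≤ n := by omega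
  obtain ⟨ρ, hρ1, hρ2⟩ := circ_perm n hn0 σ hc
  refine ⟨ρ, ?_, fun i' => ?_⟩
  · refine hk2big.trans ?_
    have h5 := hσ2.trans (hρ2 (Prot2 k2 w))
    have h6 : (univ.filter (fun i : Fin n => Prot2 k2 w ((ρ i).val + 1)
        ((ρ (finRotate n i)).val + 1))).card ≤ (univ.filter (fun i : Fin n =>
        (2 * ((ρ i).val + 1) * ((ρ (finRotate n i)).val + 1) + 1).Prime)).card := by
      apply card_le_card
      intro i hi
      rw [mem_filter] at hi ⊢
      exact ⟨hi.1, (hprime2 _ _ hi.2).1⟩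
    exact_mod_cast h5.trans h6
  obtain ⟨i, hi, hi1, hi2⟩ := hρ1 i'
  rw [hi1, hi2]
  show ((σ i : ℝ) ≤ x ^ A ∨ (σ (i + 1) : ℝ) ≤ x ^ A → (2 * σ i * σ (i + 1) + 1).Prime) ∧
    Squarefree (2 * σ i * σ (i + 1) + 1) ∧
    (∀ p : ℕ, p.Prime → p ∣ 2 * σ i * σ (i + 1) + 1 → x ^ (6 / 5 : ℝ) < p) ∧
    ((2 * σ i * σ (i + 1) + 1).primeFactors.card : ℝ) ≤ 3000 * log x ∧
    ∃ u w : ℕ, 2 * σ i * σ (i + 1) + 1 = u * w ∧ (u : ℝ) ≤ (n : ℝ) ^ ε ∧ w.primeFactors.card ≤ r
  obtain ⟨hT, h2, h2b, h3, u, w', h4, h5, h6⟩ := hσ i hi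
  refine ⟨?_, h2, ?_, h3, u, w', h4, h5.trans ?_, h6⟩
  · intro hsmall
    rcases hT with hT | hT | ⟨_, hT1', hT2'⟩
    · exact (hprime2 _ _ hT).1
    · exact (hprime _ _ hT).1
    · exfalso
      have hle : x ^ A ≤ x ^ (A + 2) := pow_le_pow_right₀ hx1 (by omega)
      rcases hsmall with h | h
      · have := Nat.le_floor (h.trans hle)
        omega
      · have := Nat.le_floor (h.trans hle)
        omega
  · intro p hp hpd
    have hzp : z < p := by
      rcases hT with hT | hT | ⟨h1, _, _⟩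
      · obtain ⟨h7, h8⟩ := hprime2 _ _ hT
        rw [(Nat.prime_dvd_prime_iff_eq hp h7).1 hpd]
        exact h8
      · obtain ⟨h7, h8⟩ := hprime _ _ hT
        rw [(Nat.prime_dvd_prime_iff_eq hp h7).1 hpd]
        exact h8
      · by_contra hcon
        by_cases hpz : p ≤ z0
        · exact hlocal _ _ h1 p (mem_filter.2 ⟨mem_range.2 (by omega), hp⟩) hpd
        · exact h2b p (mem_filter.2 ⟨mem_Ioc.2 ⟨by omega, by omega⟩, hp⟩) hpd
    have h6 : (z : ℝ) + 1 ≤ p := by exact_mod_cast hzp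
    linarith
  · apply rpow_le_rpow_of_exponent_le _ (min_le_left _ _)
    have : (1 : ℝ) ≤ ((n : ℕ) : ℝ) := by exact_mod_cast hn0
    exact this

end Pool.Agent.H34.CT
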