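import Pool.Agent.H34.CS.Defs

set_option autoImplicit false

namespace Pool.Agent.H34.CT

open Finset Pool.Agent.H34.CQ Pool.Agent.H34.CS

/-- a prescribed isolated pair `w (2 j)`, `w (2 j + 1)` -/
def Prot2 (k2 : ℕ) (w : ℕ → ℕ) (x y : ℕ) : Prop :=
  ∃ j < k2, (x = w (2 * j) ∧ y = w (2 * j + 1)) ∨ (y = w (2 * j) ∧ x = w (2 * j + 1))

/-- allowed pairs -/
def Tq (M : ℕ) (τ : ℕ → ℕ) (k : ℕ) (g : ℕ → ℕ) (k2 : ℕ) (w : ℕ → ℕ) (x y : ℕ) : Prop :=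
  Prot2 k2 w x y ∨ Tp M τ k g x y

/-- pairs that are not used for exchanges -/
def Mixq (M k : ℕ) (g : ℕ → ℕ) (k2 : ℕ) (w : ℕ → ℕ) (x y : ℕ) : Prop :=
  Mixp M k g x y ∨ Prot2 k2 w x y

end Pool.Agent.H34.CT
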