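import Pool.Agent.H24.KS.SieveC
import Pool.Agent.H24.UM.Rankin
import Pool.Agent.H95.Gol.Count
import Pool.Agent.H66.Gol.Blk

set_option autoImplicit false

namespace Pool.Agent.H34.CT

open Finset Pool.Agent.H95.Gol Pool.Agent.H24.KS

/-- a scale `bb K` for `N` -/
lemma exists_scale (N : ℕ) (hN : 2 ^ 34 ≤ N) : ∃ K : ℕ, (bb K) ^ 34 ≤ N ∧ N < (bb K) ^ 68 := by
  classical
  have hex : ∃ K : ℕ, N < (bb (K + 1)) ^ 34 := by
    refine ⟨N, ?_⟩
    have h1 : N < 2 ^ N := Nat.lt_two_pow_self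
    have h2 : (2:ℕ) ^ N ≤ bb (N + 1) := by
      unfold bb
      exact Nat.pow_le_pow_right (by norm_num) ((Nat.lt_two_pow_self (n := N)).le.trans
        (Nat.pow_le_pow_right (by norm_num) (Nat.le_succ N)))
    exact (h1.trans_le h2).trans_le (Nat.le_self_pow (by norm_num) _)
  have hs := Nat.find_spec hex
  refine ⟨Nat.find hex, ?_, ?_⟩
  · rcases Nat.eq_zero_or_pos (Nat.find hex) with h | h
    · rw [h]; simpa [bb] using hN
    · have h1 := Nat.find_min hex (Nat.sub_lt h one_pos)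
      have e : Nat.find hex - 1 + 1 = Nat.find hex := Nat.sub_add_cancel h
      rw [e] at h1
      exact not_lt.mp h1
  · rw [bb_succ, ← pow_mul] at hs
    exact hs

lemma exp_neg_blocks : ∃ C : ℝ, 0 < C ∧ ∀ (K : ℕ) (Ps : Finset ℕ),
    (∀ p, p ∈ Ps ↔ p.Prime ∧ 2 < p ∧ p ≤ bb K) →
    Real.exp (- (2 * ∑ p ∈ Ps, (1:ℝ) / p)) ≤ C / (Real.log (bb K)) ^ 2 := by
  obtain ⟨C0, hC0, hb⟩ := Pool.Agent.H66.Gol.blk
  refine ⟨Real.exp (4 * C0) * (Real.log 2) ^ 2, by
    have := Real.log_pos one_lt_two; positivity, fun K Ps hPs => ?_⟩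
  have hl2 := Real.log_pos one_lt_two
  have h1 : ∑ k ∈ range K, ∑ l ∈ PB k, (1:ℝ) / l ≤ ∑ p ∈ Ps, (1:ℝ) / p := by
    rw [← sum_biUnion]
    · apply sum_le_sum_of_subset_of_nonneg
      · intro p hp
        rw [mem_biUnion] at hp
        obtain ⟨k, hk, hp⟩ := hp
        rw [mem_PB] at hp
        rw [hPs]
        refine ⟨hp.2, ?_, hp.1.2.trans (bb_mono (by rw [mem_range] at hk; omega))⟩
        have : 2 ≤ bb k := two_le_bb k
        omega
      · intro p _ _; positivity
    · intro a _ b _ hab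
      rw [Function.onFun, disjoint_left]
      intro p hpa hpb
      rw [mem_PB] at hpa hpb
      rcases lt_or_gt_of_ne hab with h | h
      · have := bb_mono (show a + 1 ≤ b by omega)
        omega
      · have := bb_mono (show b + 1 ≤ a by omega)
        omega
  have h2 : (K:ℝ) * Real.log 2 - 2 * C0 ≤ ∑ k ∈ range K, ∑ l ∈ PB k, (1:ℝ) / l := by
    have h3 : ∀ k ∈ range K, Real.log 2 - C0 / 2 ^ k ≤ ∑ l ∈ PB k, (1:ℝ) / l := fun k _ => by
      have := (abs_le.mp (hb k)).1
      linarith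
    have h4 := sum_le_sum h3
    rw [sum_sub_distrib, sum_const, card_range, nsmul_eq_mul] at h4
    have h5 : ∑ k ∈ range K, C0 / 2 ^ k ≤ 2 * C0 := by
      have h6 : ∑ k ∈ range K, C0 / 2 ^ k = C0 * ∑ k ∈ range K, (1 / 2 : ℝ) ^ k := by
        rw [mul_sum]
        refine sum_congr rfl fun k _ => ?_
        rw [one_div, inv_pow, div_eq_mul_inv]
      rw [h6]
      have h7 : ∑ k ∈ range K, (1 / 2 : ℝ) ^ k ≤ 2 := by
        have h8 := Summable.sum_le_tsum (range K) (fun k _ => by positivity) summable_geometric_two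
        rw [tsum_geometric_two] at h8
        exact h8
      nlinarith
    linarith
  have h9 : Real.log (bb K) = 2 ^ K * Real.log 2 := log_bb K
  rw [h9]
  have h10 : Real.exp (- (2 * ∑ p ∈ Ps, (1:ℝ) / p)) ≤ Real.exp (4 * C0 - 2 * (K * Real.log 2)) := by
    apply Real.exp_le_exp.mpr
    linarith
  refine h10.trans (le_of_eq ?_)
  rw [Real.exp_sub]
  have h11 : Real.exp (2 * (K * Real.log 2)) = (2 ^ K) ^ 2 := by
    rw [show 2 * ((K:ℝ) * Real.log 2) = ((K * 2 : ℕ) : ℝ) * Real.log 2 by push_cast; ring,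
      ← Real.log_pow, Real.exp_log (by positivity), pow_mul]
  rw [h11]
  field_simp

open Classical in
lemma card_E (s : ℕ) (Q : Finset ℕ) (l : ℕ) (hl : l.Prime) (h2 : 2 < l)
    (hQ : l ∈ Q → ¬ l ∣ s) :
    ((range (l^2)).filter (ER Q ((l - 1) * (2 * s)) l)).card = gR Q l := by
  refine ER_card Q _ l hl.two_le fun h => ?_
  have h1 : Nat.Coprime l (l - 1) := by
    have := Nat.coprime_self_sub_right (show 1 ≤ l by omega)
    simpa using this
  have h3 : Nat.Coprime l 2 := by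
    rw [hl.coprime_iff_not_dvd]
    intro h4
    have := Nat.le_of_dvd (by norm_num) h4
    omega
  have h5 : Nat.Coprime l s := (hl.coprime_iff_not_dvd).mpr (hQ h)
  exact (Nat.Coprime.mul_right h1 (Nat.Coprime.mul_right h3 h5)).symm

/-- T1a -/
theorem twin_bound : ∃ C : ℝ, 0 < C ∧ ∃ n0 : ℕ, ∀ n s : ℕ, n0 ≤ n → 1 ≤ s → s ^ 2 ≤ n →
    (((Icc 1 (n / s)).filter (fun P => P.Prime ∧ (2 * s * P + 1).Prime)).card : ℝ) ≤
      C * n / (Real.log n) ^ 2 * ((∏ p ∈ s.primeFactors, (1 + 2 / (p : ℝ))) / s) := by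
  classical
  obtain ⟨C1, hC1, hsv⟩ := sieveC 2
  obtain ⟨C2, hC2, hex⟩ := exp_neg_blocks
  refine ⟨73984 * (1 + 2 * C1 * C2), by positivity, 2 ^ 80, ?_⟩
  intro n s hn hs hsn
  set N := n / s with hNdef
  have hs0 : (0:ℝ) < s := by exact_mod_cast hs
  -- `N` is large
  have hsN : s ≤ N := by
    rw [hNdef, Nat.le_div_iff_mul_le (by omega)]
    nlinarith
  have hnN : n < (N + 1) ^ 2 := by
    have h1 : n < s * (N + 1) := Nat.lt_mul_div_succ n (by omega)
    nlinarith
  have hN34 : 2 ^ 39 ≤ N := by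
    by_contra h
    push Not at h
    have h1 : (N + 1) ^ 2 ≤ (2 ^ 39) ^ 2 := Nat.pow_le_pow_left (by omega) 2
    have h2 : ((2:ℕ) ^ 39) ^ 2 < 2 ^ 80 := by norm_num
    omega
  obtain ⟨K, hK1, hK2⟩ := exists_scale N (le_trans (by norm_num) hN34)
  set b := bb K with hb
  have hb2 : 2 ≤ b := two_le_bb K
  have hb2r : (2:ℝ) ≤ b := by exact_mod_cast hb2
  set Ps := (Icc 3 b).filter Nat.Prime with hPs
  have hPsm : ∀ p, p ∈ Ps ↔ p.Prime ∧ 2 < p ∧ p ≤ bb K := by
    intro p
    rw [hPs, mem_filter, mem_Icc]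
    constructor
    · rintro ⟨⟨h1, h2⟩, h3⟩; exact ⟨h3, by omega, h2⟩
    · rintro ⟨h1, h2, h3⟩; exact ⟨⟨by omega, h3⟩, h1⟩
  set Q := Ps.filter (fun p => ¬ p ∣ s) with hQ
  have hQs : ∀ l ∈ Q, ¬ l ∣ s := fun l hl => (mem_filter.mp hl).2
  have hmain := hsv ∅ Ps K (N + 1) (fun l j => ER Q ((l - 1) * (2 * s)) l j) (fun _ _ => True)
    (by
      simp only [prod_empty, one_mul]
      exact hK1.trans (by omega)) (by simp) (disjoint_empty_left _)
    (fun p hp => by
      obtain ⟨h1, h2, h3⟩ := (hPsm p).1 hp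
      exact ⟨h1, h2, h3⟩)
    (fun p _ j => ER_per Q _ p j) (by simp)
    (fun p hp => by
      obtain ⟨h1, h2, h3⟩ := (hPsm p).1 hp
      have h4 := card_E s Q p h1 h2 (hQs p)
      have h5 : ((range (p^2)).filter ((fun l j => ER Q ((l - 1) * (2 * s)) l j) p)).card =
        gR Q p := by
        convert h4
      rw [h5]
      unfold gR
      split_ifs <;> omega)
  simp only [prod_empty, mul_one, notMem_empty, IsEmpty.forall_iff, implies_true, true_and]
    at hmain
  -- the counted primes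
  have hcount : (((Icc 1 N).filter (fun P => P.Prime ∧ (2 * s * P + 1).Prime)).card : ℝ) ≤
      b + (((range (N + 1)).filter (fun j => ∀ p ∈ Ps,
        ¬ ER Q ((p - 1) * (2 * s)) p j)).card : ℝ) := by
    have h1 : (Icc 1 N).filter (fun P => P.Prime ∧ (2 * s * P + 1).Prime) ⊆
        Icc 1 b ∪ (range (N + 1)).filter (fun j => ∀ p ∈ Ps,
          ¬ ER Q ((p - 1) * (2 * s)) p j) := by
      intro P hP
      rw [mem_filter, mem_Icc] at hP
      obtain ⟨⟨hP1, hPN⟩, hPp, hPq⟩ := hP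
      rw [mem_union, mem_Icc, mem_filter, mem_range]
      rcases Nat.lt_or_ge b P with hbP | hbP
      · right
        refine ⟨by omega, fun p hp => ?_⟩
        obtain ⟨h1, h2, h3⟩ := (hPsm p).1 hp
        unfold ER
        rintro (h | ⟨hpQ, h⟩)
        · have h4 := (Nat.prime_dvd_prime_iff_eq h1 hPp).1 (Nat.dvd_of_mod_eq_zero h)
          rw [← hb] at h3
          omega
        · have h4 : p ∣ 2 * s * P + 1 := by
            have h5 : ((p - 1) * (2 * s) * P) ≡ 1 [MOD p] := by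
              rw [Nat.ModEq, h, Nat.mod_eq_of_lt (by omega)]
            have h6 : (((p - 1) * (2 * s) * P + (2 * s * P + 1) : ℕ)) =
                p * (2 * s * P) + 1 := by
              obtain ⟨q, rfl⟩ : ∃ q, p = q + 1 := ⟨p - 1, by omega⟩
              simp only [Nat.add_sub_cancel]
              ring
            have h7 : 1 + (2 * s * P + 1) ≡ p * (2 * s * P) + 1 [MOD p] := by
              rw [← h6]
              exact (h5.symm).add_right _
            have h8 : 1 + (2 * s * P + 1) ≡ 0 + 1 [MOD p] := by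
              refine h7.trans ?_
              exact (((Nat.modEq_zero_iff_dvd).mpr (dvd_mul_right p _))).add_right 1
            rw [add_comm 1, ] at h8
            exact (Nat.modEq_zero_iff_dvd).mp (Nat.ModEq.add_right_cancel' 1 h8)
          have h9 := (Nat.prime_dvd_prime_iff_eq h1 hPq).1 h4
          have h10 : P ≤ 2 * s * P := Nat.le_mul_of_pos_left P (by omega)
          rw [← hb] at h3
          omega
      · left
        exact ⟨hP1, hbP⟩
    have h2 := (card_le_card h1).trans (card_union_le _ _)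
    rw [Nat.card_Icc, Nat.add_sub_cancel] at h2
    exact_mod_cast h2
  -- the exponential
  have hexp : Real.exp (- ∑ p ∈ Ps, (((range (p^2)).filter
      ((fun l j => ER Q ((l - 1) * (2 * s)) l j) p)).card : ℝ) / p^2) ≤
      C2 / (Real.log b) ^ 2 * ∏ p ∈ s.primeFactors, (1 + 2 / (p : ℝ)) := by
    have h1 : ∑ p ∈ Ps, (((range (p^2)).filter
        ((fun l j => ER Q ((l - 1) * (2 * s)) l j) p)).card : ℝ) / p^2 =
        2 * ∑ p ∈ Ps, (1:ℝ) / p - ∑ p ∈ Ps.filter (fun p => p ∣ s), (1:ℝ) / p := by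
      rw [sum_filter (fun p => p ∣ s) (fun p : ℕ => (1:ℝ) / p), mul_sum, ← sum_sub_distrib]
      refine sum_congr rfl fun p hp => ?_
      obtain ⟨h1, h2, h3⟩ := (hPsm p).1 hp
      have h4 := card_E s Q p h1 h2 (hQs p)
      have h5 : ((range (p^2)).filter ((fun l j => ER Q ((l - 1) * (2 * s)) l j) p)).card =
        gR Q p := by
        convert h4
      have hp0 : (p:ℝ) ≠ 0 := by exact_mod_cast h1.ne_zero
      rw [h5]
      unfold gR
      by_cases hd : p ∣ s
      · have : p ∉ Q := fun h => hQs p h hd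
        rw [if_neg this, if_pos hd]
        push_cast
        field_simp
        ring
      · have : p ∈ Q := mem_filter.mpr ⟨hp, hd⟩
        rw [if_pos this, if_neg hd]
        push_cast
        field_simp
        ring
    rw [h1, neg_sub, sub_eq_add_neg, Real.exp_add, mul_comm]
    refine mul_le_mul (hex K Ps hPsm) ?_ (Real.exp_pos _).le (by positivity)
    rw [Real.exp_sum]
    have h2 : ∏ p ∈ Ps.filter (fun p => p ∣ s), Real.exp ((1:ℝ) / p) ≤
        ∏ p ∈ Ps.filter (fun p => p ∣ s), (1 + 2 / (p : ℝ)) := by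
      refine prod_le_prod (fun p _ => (Real.exp_pos _).le) fun p hp => ?_
      have h3 := ((hPsm p).1 (mem_filter.mp hp).1)
      have h4 : (1:ℝ) ≤ p := by exact_mod_cast h3.1.one_le
      have h5 := Pool.Agent.H24.UM.exp_le_two (u := (1:ℝ) / p) (by positivity)
        (by rw [div_le_one (by linarith)]; exact h4)
      calc Real.exp ((1:ℝ) / p) ≤ 1 + 2 * (1 / p) := h5
        _ = 1 + 2 / p := by ring
    refine h2.trans ?_
    have hsub : Ps.filter (fun p => p ∣ s) ⊆ s.primeFactors := by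
      intro p hp
      rw [mem_filter] at hp
      rw [Nat.mem_primeFactors]
      exact ⟨((hPsm p).1 hp.1).1, hp.2, by omega⟩
    rw [← prod_sdiff hsub]
    refine le_mul_of_one_le_left (prod_nonneg fun p _ => by positivity) ?_
    refine prod_induction _ (fun x : ℝ => 1 ≤ x) (fun a b ha hb => by nlinarith) le_rfl ?_
    intro p _
    have : (0:ℝ) ≤ 2 / p := by positivity
    linarith
  set W := ∏ p ∈ s.primeFactors, (1 + 2 / (p : ℝ)) with hW
  have hW1 : 1 ≤ W := by
    refine prod_induction _ (fun x : ℝ => 1 ≤ x) (fun a b ha hb => by nlinarith) le_rfl ?_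
    intro p _
    have : (0:ℝ) ≤ 2 / p := by positivity
    linarith
  -- logarithms
  have hlb : 0 < Real.log b := Real.log_pos (by linarith)
  have hn0 : (0:ℝ) < n := by
    have : 0 < n := lt_of_lt_of_le (by norm_num) hn
    exact_mod_cast this
  have hL0 : 0 < Real.log n := Real.log_pos (by
    have : 1 < n := lt_of_lt_of_le (by norm_num) hn
    exact_mod_cast this)
  have hLb : Real.log n ≤ 272 * Real.log b := by
    have h1 : n ≤ (N ^ 2) ^ 2 := by
      have h2 : (N + 1) ^ 2 ≤ (N ^ 2) ^ 2 := Nat.pow_le_pow_left (by nlinarith) 2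
      omega
    have h3 : n ≤ b ^ 272 := by
      calc n ≤ (N ^ 2) ^ 2 := h1
        _ ≤ ((b ^ 68) ^ 2) ^ 2 := Nat.pow_le_pow_left (Nat.pow_le_pow_left hK2.le 2) 2
        _ = b ^ 272 := by rw [← pow_mul, ← pow_mul]
    have h4 : (n:ℝ) ≤ (b:ℝ) ^ 272 := by exact_mod_cast h3
    have h5 := Real.log_le_log hn0 h4
    rw [Real.log_pow] at h5
    exact_mod_cast h5
  have hlogb : Real.log b ≤ b := (Real.log_le_sub_one_of_pos (by linarith)).trans (by linarith)
  have hNr : (N:ℝ) ≤ n / s := Nat.cast_div_le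
  have hN1 : (1:ℝ) ≤ N := by
    have : 1 ≤ N := le_trans (by norm_num) hN34
    exact_mod_cast this
  have hLsq : (Real.log n) ^ 2 ≤ 73984 * (Real.log b) ^ 2 := by
    calc (Real.log n) ^ 2 ≤ (272 * Real.log b) ^ 2 := pow_le_pow_left₀ hL0.le hLb 2
      _ = 73984 * (Real.log b) ^ 2 := by ring
  -- the small primes
  have hsmall : (b:ℝ) ≤ 73984 * (n / s) / (Real.log n) ^ 2 := by
    rw [le_div_iff₀ (by positivity)]
    have h1 : (b:ℝ) * (Real.log b) ^ 2 ≤ (b:ℝ) ^ 3 := by
      have : (Real.log b) ^ 2 ≤ (b:ℝ) ^ 2 := pow_le_pow_left₀ hlb.le hlogb 2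
      nlinarith
    have h2 : (b:ℝ) ^ 3 ≤ N := by
      have h3 : b ^ 3 ≤ N := (Nat.pow_le_pow_right (by omega) (by norm_num)).trans hK1
      exact_mod_cast h3
    calc (b:ℝ) * (Real.log n) ^ 2 ≤ b * (73984 * (Real.log b) ^ 2) :=
          mul_le_mul_of_nonneg_left hLsq (by linarith)
      _ = 73984 * (b * (Real.log b) ^ 2) := by ring
      _ ≤ 73984 * (n / s) := by
          apply mul_le_mul_of_nonneg_left _ (by norm_num)
          linarith
  -- the main term
  have hbig : C1 * ((N + 1 : ℕ) : ℝ) * (C2 / (Real.log b) ^ 2 * W) ≤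
      73984 * (2 * C1 * C2) * (n / s) / (Real.log n) ^ 2 * W := by
    have h1 : ((N + 1 : ℕ) : ℝ) ≤ 2 * (n / s) := by
      push_cast
      linarith
    have h2 : 1 / (Real.log b) ^ 2 ≤ 73984 / (Real.log n) ^ 2 := by
      rw [div_le_div_iff₀ (by positivity) (by positivity)]
      linarith
    have h3 : C1 * ((N + 1 : ℕ) : ℝ) * (C2 / (Real.log b) ^ 2 * W) =
        (C1 * C2 * W) * (((N + 1 : ℕ) : ℝ) * (1 / (Real.log b) ^ 2)) := by
      ring
    rw [h3]
    have h4 : ((N + 1 : ℕ) : ℝ) * (1 / (Real.log b) ^ 2) ≤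
        2 * (n / s) * (73984 / (Real.log n) ^ 2) :=
      mul_le_mul h1 h2 (by positivity) (by positivity)
    have h5 : 0 ≤ C1 * C2 * W := by
      have : 0 ≤ W := by linarith
      positivity
    calc (C1 * C2 * W) * (((N + 1 : ℕ) : ℝ) * (1 / (Real.log b) ^ 2))
        ≤ (C1 * C2 * W) * (2 * (n / s) * (73984 / (Real.log n) ^ 2)) :=
          mul_le_mul_of_nonneg_left h4 h5
      _ = _ := by ring
  have hfin : (((range (N + 1)).filter (fun j => ∀ p ∈ Ps,
      ¬ ER Q ((p - 1) * (2 * s)) p j)).card : ℝ) ≤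
      C1 * ((N + 1 : ℕ) : ℝ) * (C2 / (Real.log b) ^ 2 * W) :=
    hmain.trans (mul_le_mul_of_nonneg_left hexp (by positivity))
  have hns : 0 ≤ 73984 * ((n:ℝ) / s) / (Real.log n) ^ 2 := by positivity
  calc (((Icc 1 N).filter (fun P => P.Prime ∧ (2 * s * P + 1).Prime)).card : ℝ)
      ≤ b + _ := hcount
    _ ≤ 73984 * (n / s) / (Real.log n) ^ 2 * W +
        73984 * (2 * C1 * C2) * (n / s) / (Real.log n) ^ 2 * W := by
        refine add_le_add (hsmall.trans ?_) (hfin.trans hbig)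
        nlinarith
    _ = 73984 * (1 + 2 * C1 * C2) * n / (Real.log n) ^ 2 * (W / s) := by
        ring

end Pool.Agent.H34.CT
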